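import Pool.Agent.Helper26.TE.Defs

/-!
# TE-4 (MP_277c78_nt): put the proofs into this file (keep the statements and the namespace)

`GG_low`: by Markov (`∑ k l ^ k / k! = l exp l`) the `k ≤ 2 l` carry half of `exp l`, and there
`t k ≥ t ⌊2 l⌋ ≥ c / (2 l)`.
-/

set_option autoImplicit false

namespace Pool.Agent.Helper26.TE

open Finset Filter Topology
open Pool.Agent.Helper16.UB (Admissible M W)
open Pool.Agent.Helper26.TD

theorem GG_summable {t : ℕ → ℝ} (ht0 : ∀ k, 0 ≤ t k) (ht1 : ∀ k, t k ≤ 1) (x : ℝ) :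
    Summable fun k : ℕ => t k * x ^ k / (k.factorial : ℝ) := by
  refine Summable.of_norm_bounded (Real.summable_pow_div_factorial |x|) fun k => ?_
  rw [norm_div, norm_mul, norm_pow, Real.norm_eq_abs, Real.norm_eq_abs, Real.norm_natCast, abs_of_nonneg (ht0 k)]
  refine div_le_div_of_nonneg_right ?_ (Nat.cast_nonneg _)
  exact mul_le_of_le_one_left (by positivity) (ht1 k)

theorem GG_nonneg {t : ℕ → ℝ} (ht0 : ∀ k, 0 ≤ t k) {x : ℝ} (hx : 0 ≤ x) : 0 ≤ GG t x :=
  tsum_nonneg fun k => div_nonneg (mul_nonneg (ht0 k) (pow_nonneg hx k)) (Nat.cast_nonneg _)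

theorem sum_le_GG {t : ℕ → ℝ} (ht0 : ∀ k, 0 ≤ t k) (ht1 : ∀ k, t k ≤ 1) {x : ℝ} (hx : 0 ≤ x)
    (s : Finset ℕ) : ∑ k ∈ s, t k * x ^ k / (k.factorial : ℝ) ≤ GG t x :=
  (GG_summable ht0 ht1 x).sum_le_tsum s fun k _ =>
    div_nonneg (mul_nonneg (ht0 k) (pow_nonneg hx k)) (Nat.cast_nonneg _)

/-- the terms up to `2 l` carry half of `exp l` -/
private theorem half_exp {l : ℝ} (hl : 0 < l) :
    Real.exp l / 2 ≤ ∑ k ∈ range (⌊2 * l⌋₊ + 1), l ^ k / (k.factorial : ℝ) := by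
  have h1 : HasSum (fun k : ℕ => l ^ k / (k.factorial : ℝ)) (Real.exp l) := by
    rw [Real.exp_eq_exp_ℝ]
    exact NormedSpace.expSeries_div_hasSum_exp l
  have h2 : HasSum (fun k : ℕ => (k : ℝ) * (l ^ k / (k.factorial : ℝ))) (l * Real.exp l) := by
    rw [← hasSum_nat_add_iff' 1]
    simp only [range_one, sum_singleton, Nat.cast_zero, zero_mul, sub_zero]
    refine (h1.mul_left l).congr_fun fun k => ?_
    rw [Nat.factorial_succ, pow_succ]
    push_cast
    have h3 : ((k : ℝ) + 1) ≠ 0 := by positivity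
    have h4 : (k.factorial : ℝ) ≠ 0 := by positivity
    field_simp
  have h3 : HasSum (fun k : ℕ => l ^ k / (k.factorial : ℝ) - 1 / (2 * l) * ((k : ℝ) * (l ^ k / (k.factorial : ℝ))))
      (Real.exp l - 1 / (2 * l) * (l * Real.exp l)) := h1.sub (h2.mul_left _)
  have e1 : Real.exp l - 1 / (2 * l) * (l * Real.exp l) = Real.exp l / 2 := by
    field_simp
    ring
  rw [e1] at h3
  have h4 : HasSum (fun k : ℕ => if k ∈ range (⌊2 * l⌋₊ + 1) then l ^ k / (k.factorial : ℝ) else 0)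
      (∑ k ∈ range (⌊2 * l⌋₊ + 1), l ^ k / (k.factorial : ℝ)) := by
    have h5 : HasSum (fun k : ℕ => if k ∈ range (⌊2 * l⌋₊ + 1) then l ^ k / (k.factorial : ℝ) else 0)
        (∑ k ∈ range (⌊2 * l⌋₊ + 1), if k ∈ range (⌊2 * l⌋₊ + 1) then l ^ k / (k.factorial : ℝ) else 0) :=
      hasSum_sum_of_ne_finset_zero fun k hk => if_neg hk
    rwa [sum_congr rfl fun k hk => if_pos hk] at h5
  refine hasSum_le (fun k => ?_) h3 h4
  have ha : 0 ≤ l ^ k / (k.factorial : ℝ) := by positivity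
  by_cases hk : k ∈ range (⌊2 * l⌋₊ + 1)
  · rw [if_pos hk]
    have : 0 ≤ 1 / (2 * l) * ((k : ℝ) * (l ^ k / (k.factorial : ℝ))) := by positivity
    linarith
  · rw [if_neg hk]
    rw [mem_range, not_lt] at hk
    have h6 : 2 * l < k := lt_of_lt_of_le (Nat.lt_floor_add_one _) (by exact_mod_cast hk)
    have h7 : 1 ≤ 1 / (2 * l) * (k : ℝ) := by
      rw [one_div, inv_mul_eq_div, le_div_iff₀ (by positivity)]
      linarith
    have h8 := mul_le_mul_of_nonneg_right h7 ha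
    linarith

theorem GG_low {t : ℕ → ℝ} (ht0 : ∀ k, 0 ≤ t k) (ht1 : ∀ k, t k ≤ 1) (hta : Antitone t) {c : ℝ}
    (hc : 0 < c) {k0 : ℕ} (htc : ∀ k, k0 ≤ k → c / (k : ℝ) ≤ t k) :
    ∃ l0 : ℝ, ∀ l : ℝ, l0 ≤ l → c / (8 * l) ≤ Real.exp (-l) * GG t l := by
  refine ⟨max 1 k0, fun l hl => ?_⟩
  have hl1 : 1 ≤ l := le_trans (le_max_left _ _) hl
  have hl2 : (k0 : ℝ) ≤ l := le_trans (le_max_right _ _) hl
  have hlp : 0 < l := by linarith
  obtain ⟨K, hK⟩ : ∃ K, K = ⌊2 * l⌋₊ := ⟨_, rfl⟩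
  have hK0 : k0 ≤ K := by
    rw [hK]
    exact Nat.le_floor (by linarith)
  have hK1 : 1 ≤ K := by
    rw [hK]
    exact Nat.le_floor (by push_cast; linarith)
  have hK2 : (K : ℝ) ≤ 2 * l := by
    rw [hK]
    exact Nat.floor_le (by linarith)
  have hKp : (0 : ℝ) < K := by exact_mod_cast hK1
  have h1 : c / (2 * l) ≤ t K := (div_le_div_of_nonneg_left hc.le hKp hK2).trans (htc K hK0)
  have h2 : c / (2 * l) * (Real.exp l / 2) ≤ GG t l := by
    refine le_trans ?_ (sum_le_GG ht0 ht1 hlp.le (range (K + 1)))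
    have h3 := half_exp hlp
    rw [← hK] at h3
    refine (mul_le_mul_of_nonneg_left h3 (by positivity)).trans ?_
    rw [mul_sum]
    refine sum_le_sum fun k hk => ?_
    rw [mul_div_assoc]
    refine mul_le_mul_of_nonneg_right (h1.trans (hta ?_)) (by positivity)
    have := mem_range.1 hk
    omega
  have h3 : Real.exp (-l) * (c / (2 * l) * (Real.exp l / 2)) = c / (4 * l) := by
    have h4 : Real.exp (-l) * Real.exp l = 1 := by rw [← Real.exp_add, neg_add_cancel, Real.exp_zero]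
    calc Real.exp (-l) * (c / (2 * l) * (Real.exp l / 2)) = c / (2 * l) / 2 * (Real.exp (-l) * Real.exp l) := by ring
      _ = c / (4 * l) := by rw [h4]; field_simp; ring
  have h4 := mul_le_mul_of_nonneg_left h2 (Real.exp_pos (-l)).le
  rw [h3] at h4
  refine le_trans ?_ h4
  exact div_le_div_of_nonneg_left hc.le (by positivity) (by linarith)

end Pool.Agent.Helper26.TE
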