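import Pool.Agent.Helper26.TE.Defs

/-!
# TE-6 (MP_277c78_nt): the sum of the reciprocals of the numbers prime to a set of primes

For a set `P` of positive numbers let `S P = ∑ c ∈ CF P X, 1 / c`. Then `(1 - 1 / q) * S P ≤ S (insert q P)`, because the
members of `CF P X` divisible by `q` are `q * c` with `c ∈ CF P X`. So `∏ (1 - 1 / p) * log X ≤ S P`, and
`1 - 1 / p ≥ exp (- 1 / (p - 1))`, `1 / (p - 1) = 1 / p + 1 / (p (p - 1))`, `∑_(p > z) 1 / (p (p - 1)) ≤ 1 / z`.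
-/

set_option autoImplicit false

namespace Pool.Agent.Helper26.TE

open Finset Filter Topology
open Pool.Agent.Helper16.UB (Admissible M W)
open Pool.Agent.Helper26.TD

private lemma cf_insert (P : Finset ℕ) (X q : ℕ) (hq : 0 < q) :
    (1 - 1 / (q : ℝ)) * ∑ c ∈ CF P X, 1 / (c : ℝ) ≤ ∑ c ∈ CF (insert q P) X, 1 / (c : ℝ) := by
  have hqR : (0 : ℝ) < q := by exact_mod_cast hq
  have h1 : ∑ c ∈ CF P X, 1 / (c : ℝ) =
      ∑ c ∈ (CF P X).filter (fun c => q ∣ c), 1 / (c : ℝ) +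
        ∑ c ∈ (CF P X).filter (fun c => ¬ q ∣ c), 1 / (c : ℝ) :=
    (sum_filter_add_sum_filter_not _ _ _).symm
  have h2 : ∑ c ∈ (CF P X).filter (fun c => q ∣ c), 1 / (c : ℝ) ≤
      (1 / (q : ℝ)) * ∑ c ∈ CF P X, 1 / (c : ℝ) := by
    rw [mul_sum]
    have h3 : ∑ c ∈ (CF P X).filter (fun c => q ∣ c), 1 / (c : ℝ) =
        ∑ c ∈ ((CF P X).filter (fun c => q ∣ c)).image (fun c => c / q), 1 / (q : ℝ) * (1 / (c : ℝ)) := by
      rw [sum_image]
      · apply sum_congr rfl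
        intro c hc
        rw [mem_filter] at hc
        rw [Nat.cast_div hc.2 hqR.ne']
        field_simp
      · intro c hc d hd h
        have hc' := (mem_filter.1 (mem_coe.1 hc)).2
        have hd' := (mem_filter.1 (mem_coe.1 hd)).2
        simp only at h
        rw [← Nat.mul_div_cancel' hc', ← Nat.mul_div_cancel' hd', h]
    rw [h3]
    apply sum_le_sum_of_subset_of_nonneg
    · intro d hd
      obtain ⟨c, hc, rfl⟩ := mem_image.1 hd
      obtain ⟨hc1, hc2⟩ := mem_filter.1 hc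
      unfold CF at hc1 ⊢
      rw [mem_filter, mem_Icc] at hc1 ⊢
      refine ⟨⟨Nat.div_pos (Nat.le_of_dvd (by omega) hc2) hq, (Nat.div_le_self _ _).trans hc1.1.2⟩, ?_⟩
      intro p hp hpd
      exact hc1.2 p hp (hpd.trans (Nat.div_dvd_of_dvd hc2))
    · intro d _ _
      positivity
  have h4 : (CF P X).filter (fun c => ¬ q ∣ c) = CF (insert q P) X := by
    ext c
    unfold CF
    rw [mem_filter, mem_filter, mem_filter]
    simp only [mem_insert, forall_eq_or_imp]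
    tauto
  rw [h4] at h1
  linarith

private lemma cf_prod (P : Finset ℕ) (X : ℕ) (hP : ∀ p ∈ P, 1 ≤ p) :
    (∏ p ∈ P, (1 - 1 / (p : ℝ))) * ∑ c ∈ Icc 1 X, 1 / (c : ℝ) ≤ ∑ c ∈ CF P X, 1 / (c : ℝ) := by
  classical
  induction P using Finset.induction_on with
  | empty =>
    unfold CF
    simp
  | insert q P hq ih =>
    rw [prod_insert hq, mul_assoc]
    have hq1 := hP q (mem_insert_self _ _)
    have hqR : (1 : ℝ) ≤ q := by exact_mod_cast hq1
    have h0 : 0 ≤ 1 - 1 / (q : ℝ) := by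
      rw [sub_nonneg, div_le_one (by linarith)]
      exact hqR
    exact (mul_le_mul_of_nonneg_left (ih fun p hp => hP p (mem_insert_of_mem hp)) h0).trans
      (cf_insert P X q (by omega))

private lemma tel {z : ℕ} (hz : 1 ≤ z) (y : ℕ) :
    ∑ m ∈ Ioc z y, 1 / ((m : ℝ) * ((m : ℝ) - 1)) ≤ 1 / (z : ℝ) := by
  have hzR : (1 : ℝ) ≤ z := by exact_mod_cast hz
  rcases Nat.lt_or_ge y z with h | h
  · rw [Ioc_eq_empty (by omega), sum_empty]
    positivity
  · have key : ∑ m ∈ Ioc z y, 1 / ((m : ℝ) * ((m : ℝ) - 1)) = 1 / (z : ℝ) - 1 / (y : ℝ) := by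
      induction y, h using Nat.le_induction with
      | base => simp
      | succ y hy ih =>
        have hyR : (1 : ℝ) ≤ y := hzR.trans (by exact_mod_cast hy)
        rw [← Finset.insert_Ioc_right_eq_Ioc_add_one hy, sum_insert (by simp), ih]
        push_cast
        have h1 : (y : ℝ) ≠ 0 := by positivity
        have h2 : (y : ℝ) + 1 ≠ 0 := by positivity
        rw [add_sub_cancel_right]
        field_simp
        ring
    rw [key]
    have : 0 ≤ 1 / (y : ℝ) := by positivity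
    linarith

private lemma one_sub_ge {p : ℕ} (hp : 2 ≤ p) :
    Real.exp (-(1 / (p : ℝ)) - 1 / ((p : ℝ) * ((p : ℝ) - 1))) ≤ 1 - 1 / (p : ℝ) := by
  have hpR : (2 : ℝ) ≤ p := by exact_mod_cast hp
  have h1 : (0 : ℝ) < (p : ℝ) - 1 := by linarith
  have h0 : (0 : ℝ) < p := by linarith
  have e : -(1 / (p : ℝ)) - 1 / ((p : ℝ) * ((p : ℝ) - 1)) = -(1 / ((p : ℝ) - 1)) := by
    field_simp
    ring
  rw [e, Real.exp_neg]
  have h2 : 1 / ((p : ℝ) - 1) + 1 ≤ Real.exp (1 / ((p : ℝ) - 1)) := Real.add_one_le_exp _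
  have h3 : 0 < 1 / ((p : ℝ) - 1) + 1 := by positivity
  calc (Real.exp (1 / ((p : ℝ) - 1)))⁻¹ ≤ (1 / ((p : ℝ) - 1) + 1)⁻¹ := inv_anti₀ h3 h2
    _ = 1 - 1 / (p : ℝ) := by
      have h4 : 1 / ((p : ℝ) - 1) + 1 = p / ((p : ℝ) - 1) := by
        field_simp
        ring
      rw [h4, inv_div]
      field_simp

theorem cf_ge {z y X : ℕ} (hz : 1 ≤ z) :
    Real.log X * Real.exp (-LL (PP z y) - 1 / (z : ℝ)) ≤ ∑ c ∈ CF (PP z y) X, 1 / (c : ℝ) := by
  have h2 : ∀ p ∈ PP z y, 2 ≤ p := by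
    intro p hp
    unfold PP at hp
    exact (mem_filter.1 hp).2.1.two_le
  have hsub : PP z y ⊆ Ioc z y := by
    intro p hp
    unfold PP at hp
    rw [mem_filter, mem_Icc] at hp
    exact mem_Ioc.2 ⟨hp.2.2, hp.1.2⟩
  have hprod : Real.exp (-LL (PP z y) - 1 / (z : ℝ)) ≤ ∏ p ∈ PP z y, (1 - 1 / (p : ℝ)) := by
    calc Real.exp (-LL (PP z y) - 1 / (z : ℝ))
        ≤ Real.exp (∑ p ∈ PP z y, (-(1 / (p : ℝ)) - 1 / ((p : ℝ) * ((p : ℝ) - 1)))) := by
          apply Real.exp_le_exp.2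
          rw [sum_sub_distrib, sum_neg_distrib]
          have h3 : ∑ p ∈ PP z y, 1 / ((p : ℝ) * ((p : ℝ) - 1)) ≤ 1 / (z : ℝ) := by
            refine le_trans (sum_le_sum_of_subset_of_nonneg hsub ?_) (tel hz y)
            intro m hm _
            have h4 : (1 : ℝ) ≤ m := by
              have := (mem_Ioc.1 hm).1
              exact_mod_cast (by omega : 1 ≤ m)
            apply div_nonneg zero_le_one
            exact mul_nonneg (by linarith) (by linarith)
          have h5 : LL (PP z y) = ∑ p ∈ PP z y, 1 / (p : ℝ) := rfl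
          rw [h5]
          linarith
      _ = ∏ p ∈ PP z y, Real.exp (-(1 / (p : ℝ)) - 1 / ((p : ℝ) * ((p : ℝ) - 1))) :=
          Real.exp_sum _ _
      _ ≤ _ := prod_le_prod (fun p _ => (Real.exp_pos _).le) fun p hp => one_sub_ge (h2 p hp)
  have hlog : Real.log X ≤ ∑ c ∈ Icc 1 X, 1 / (c : ℝ) := by
    rcases Nat.eq_zero_or_pos X with h | h
    · subst h
      simp
    · have h3 := log_add_one_le_harmonic X
      rw [harmonic_eq_sum_Icc] at h3
      push_cast at h3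
      have h4 : Real.log X ≤ Real.log ((X : ℝ) + 1) :=
        Real.log_le_log (by exact_mod_cast h) (by linarith)
      simp only [one_div]
      linarith
  have hS0 : 0 ≤ ∑ c ∈ Icc 1 X, 1 / (c : ℝ) := sum_nonneg fun c _ => by positivity
  calc Real.log X * Real.exp (-LL (PP z y) - 1 / (z : ℝ))
      ≤ (∑ c ∈ Icc 1 X, 1 / (c : ℝ)) * Real.exp (-LL (PP z y) - 1 / (z : ℝ)) :=
        mul_le_mul_of_nonneg_right hlog (Real.exp_pos _).le
    _ ≤ (∑ c ∈ Icc 1 X, 1 / (c : ℝ)) * ∏ p ∈ PP z y, (1 - 1 / (p : ℝ)) :=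
        mul_le_mul_of_nonneg_left hprod hS0
    _ = (∏ p ∈ PP z y, (1 - 1 / (p : ℝ))) * ∑ c ∈ Icc 1 X, 1 / (c : ℝ) := mul_comm _ _
    _ ≤ _ := cf_prod _ X fun p hp => (h2 p hp).trans' (by norm_num)

end Pool.Agent.Helper26.TE
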