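import Pool.Agent.Helper26.TE.Defs
import Pool.Agent.Helper26.TD.Link

/-!
# TE-5 (MP_277c78_nt): put the proofs into this file (keep the statements and the namespace)

`(c, s) ↦ c * ∏ p ∈ s, p` is injective (`s = P.filter (· ∣ n)`, as in TD/SplitInj.lean), the value `n` is at
most `c * y ^ K ≤ N`, `Ω n = Ω c + s.card ≤ s.card + J`, and `td r` is antitone (`td_anti`) and `≥ 0`.
-/

set_option autoImplicit false

namespace Pool.Agent.Helper26.TE

open Finset Filter Topology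
open Pool.Agent.Helper16.UB (Admissible M W)
open Pool.Agent.Helper26.TD

private theorem dvd_mul_prod {P : Finset ℕ} (hP : ∀ p ∈ P, p.Prime) {c : ℕ}
    (hc : ∀ p ∈ P, ¬ p ∣ c) {s : Finset ℕ} (hs : s ⊆ P) {p : ℕ} (hp : p ∈ P) :
    p ∣ c * ∏ q ∈ s, q ↔ p ∈ s := by
  have hpp := hP p hp
  rw [hpp.dvd_mul, or_iff_right (hc p hp)]
  constructor
  · intro h
    obtain ⟨q, hq, hpq⟩ := (hpp.prime.dvd_finsetProd_iff _).1 h
    have := (Nat.prime_dvd_prime_iff_eq hpp (hP q (hs hq))).1 hpq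
    rw [this]
    exact hq
  · intro h
    exact dvd_prod_of_mem _ h

private theorem omega_prod (s : Finset ℕ) (hs : ∀ p ∈ s, p.Prime) :
    ArithmeticFunction.cardFactors (∏ p ∈ s, p) = s.card := by
  induction s using Finset.induction_on with
  | empty => simp
  | insert a s ha ih =>
    have h1 : ∀ p ∈ s, p.Prime := fun p hp => hs p (mem_insert_of_mem hp)
    have hpos : 0 < ∏ p ∈ s, p := prod_pos fun p hp => (h1 p hp).pos
    have ha' := hs a (mem_insert_self a s)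
    rw [prod_insert ha, ArithmeticFunction.cardFactors_mul ha'.ne_zero hpos.ne', ih h1,
      ArithmeticFunction.cardFactors_apply_prime ha', card_insert_of_notMem ha, add_comm]

open Classical in
theorem conv {r N z y K J : ℕ} :
    (∑ c ∈ (CF (PP z y) N).filter (fun c => c * y ^ K ≤ N ∧ ArithmeticFunction.cardFactors c ≤ J),
        1 / (c : ℝ)) *
      ∑ s ∈ (PP z y).powerset.filter (fun s => s.card ≤ K),
        td r (s.card + J) * ∏ p ∈ s, 1 / (p : ℝ) ≤
      ∑ n ∈ Icc 1 N, td r (ArithmeticFunction.cardFactors n) * (1 / (n : ℝ)) := by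
  have hPP : ∀ p ∈ PP z y, p.Prime ∧ p ≤ y := by
    intro p hp
    rw [PP, mem_filter, mem_Icc] at hp
    exact ⟨hp.2.1, hp.1.2⟩
  rw [sum_mul_sum, ← sum_product']
  set C := (CF (PP z y) N).filter
    (fun c => c * y ^ K ≤ N ∧ ArithmeticFunction.cardFactors c ≤ J) with hC
  set Q := (PP z y).powerset.filter (fun s => s.card ≤ K) with hQ
  have hmem : ∀ c s, (c, s) ∈ C ×ˢ Q → (1 ≤ c ∧ c ≤ N) ∧ (∀ p ∈ PP z y, ¬ p ∣ c) ∧ c * y ^ K ≤ N ∧
      ArithmeticFunction.cardFactors c ≤ J ∧ s ⊆ PP z y ∧ s.card ≤ K := by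
    intro c s h
    rw [mem_product, hC, hQ, mem_filter, mem_filter, mem_powerset, CF, mem_filter, mem_Icc] at h
    obtain ⟨⟨⟨h1, h2⟩, h3, h4⟩, h5, h6⟩ := h
    exact ⟨h1, h2, h3, h4, h5, h6⟩
  have hinj : Set.InjOn (fun x : ℕ × Finset ℕ => x.1 * ∏ p ∈ x.2, p)
      ((C ×ˢ Q : Finset (ℕ × Finset ℕ)) : Set (ℕ × Finset ℕ)) := by
    rintro ⟨c, s⟩ h ⟨c', s'⟩ h' he
    obtain ⟨-, h1, -, -, h2, -⟩ := hmem c s (mem_coe.1 h)
    obtain ⟨-, h1', -, -, h2', -⟩ := hmem c' s' (mem_coe.1 h')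
    dsimp only at he
    have hss : s = s' := by
      ext p
      constructor
      · intro hp
        have h3 := (dvd_mul_prod (fun p hp => (hPP p hp).1) h1 h2 (h2 hp)).2 hp
        rw [he] at h3
        exact (dvd_mul_prod (fun p hp => (hPP p hp).1) h1' h2' (h2 hp)).1 h3
      · intro hp
        have h3 := (dvd_mul_prod (fun p hp => (hPP p hp).1) h1' h2' (h2' hp)).2 hp
        rw [← he] at h3
        exact (dvd_mul_prod (fun p hp => (hPP p hp).1) h1 h2 (h2' hp)).1 h3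
    subst hss
    have hpos : 0 < ∏ p ∈ s, p := prod_pos fun p hp => (hPP p (h2 hp)).1.pos
    have := Nat.eq_of_mul_eq_mul_right hpos he
    rw [this]
  have h1 : ∑ x ∈ C ×ˢ Q, 1 / (x.1 : ℝ) * (td r (x.2.card + J) * ∏ p ∈ x.2, 1 / (p : ℝ)) ≤
      ∑ n ∈ (C ×ˢ Q).image (fun x : ℕ × Finset ℕ => x.1 * ∏ p ∈ x.2, p),
        td r (ArithmeticFunction.cardFactors n) * (1 / (n : ℝ)) := by
    rw [sum_image hinj]
    refine sum_le_sum fun x hx => ?_
    obtain ⟨c, s⟩ := x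
    obtain ⟨⟨h3, -⟩, -, -, h4, h5, -⟩ := hmem c s hx
    dsimp only
    have hpos : 0 < ∏ p ∈ s, p := prod_pos fun p hp => (hPP p (h5 hp)).1.pos
    have hO : ArithmeticFunction.cardFactors (c * ∏ p ∈ s, p) ≤ s.card + J := by
      rw [ArithmeticFunction.cardFactors_mul (by omega) hpos.ne',
        omega_prod s fun p hp => (hPP p (h5 hp)).1]
      omega
    have hval : 1 / (c : ℝ) * ∏ p ∈ s, 1 / (p : ℝ) = 1 / ((c * ∏ p ∈ s, p : ℕ) : ℝ) := by
      push_cast
      rw [prod_div_distrib, prod_const_one, div_mul_div_comm, one_mul]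
    calc 1 / (c : ℝ) * (td r (s.card + J) * ∏ p ∈ s, 1 / (p : ℝ)) =
          td r (s.card + J) * (1 / (c : ℝ) * ∏ p ∈ s, 1 / (p : ℝ)) := by ring
      _ ≤ td r (ArithmeticFunction.cardFactors (c * ∏ p ∈ s, p)) *
          (1 / (c : ℝ) * ∏ p ∈ s, 1 / (p : ℝ)) := by
        refine mul_le_mul_of_nonneg_right (td_anti r hO) ?_
        rw [hval]
        positivity
      _ = _ := by rw [hval]
  refine h1.trans (sum_le_sum_of_subset_of_nonneg ?_ fun n _ _ =>
    mul_nonneg (td_nonneg _ _) (by positivity))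
  intro n hn
  rw [mem_image] at hn
  obtain ⟨⟨c, s⟩, hx, rfl⟩ := hn
  obtain ⟨⟨hc1, hc2⟩, -, hcy, -, hs, hsK⟩ := hmem c s hx
  dsimp only
  have hpos : 0 < ∏ p ∈ s, p := prod_pos fun p hp => (hPP p (hs hp)).1.pos
  rw [mem_Icc]
  refine ⟨Nat.one_le_iff_ne_zero.2 (Nat.mul_ne_zero (by omega) hpos.ne'), ?_⟩
  rcases Nat.eq_zero_or_pos y with hy | hy
  · have hP0 : PP z y = ∅ := by
      rw [PP, hy]
      rfl
    rw [hP0, subset_empty] at hs
    rw [hs, prod_empty, mul_one]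
    exact hc2
  refine le_trans (Nat.mul_le_mul_left c ?_) hcy
  calc ∏ p ∈ s, p ≤ ∏ _p ∈ s, y := prod_le_prod' fun p hp => (hPP p (hs hp)).2
    _ = y ^ s.card := by rw [prod_const]
    _ ≤ y ^ K := Nat.pow_le_pow_right hy hsK

end Pool.Agent.Helper26.TE
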