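import Pool.Agent.Helper26.TD.Defs

/-!
# Project TE (MP_277c78_nt): `M_r(N) ~ ∑_k π_k(r) (log log N) ^ k / k!`
-/

set_option autoImplicit false

namespace Pool.Agent.Helper26.TE

open Finset Filter

/-- the exponential generating function of the sequence `t` -/
noncomputable def GG (t : ℕ → ℝ) (x : ℝ) : ℝ := ∑' k : ℕ, t k * x ^ k / (k.factorial : ℝ)

/-- the numbers up to `X` prime to all `p ∈ P` (for `P` a set of primes) -/
def CF (P : Finset ℕ) (X : ℕ) : Finset ℕ := (Icc 1 X).filter fun c => ∀ p ∈ P, ¬ p ∣ c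

end Pool.Agent.Helper26.TE
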