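import Pool.Agent.Helper26.TE.Defs

/-!
# TE-8 (MP_277c78_nt): lower bound for elementary symmetric sums of reciprocals of primes
-/

set_option autoImplicit false

namespace Pool.Agent.Helper26.TE

open Finset Filter Topology
open Pool.Agent.Helper16.UB (Admissible M W)
open Pool.Agent.Helper26.TD

theorem el_taylor {L a : ℝ} (hL : 0 ≤ L) (ha : 0 ≤ a) (m : ℕ) :
    (L + a) ^ (m + 2) ≤ L ^ (m + 2) + (m + 2) * a * L ^ (m + 1) +
      ((m + 2) * (m + 1) / 2) * a ^ 2 * (L + a) ^ m := by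
  induction m with
  | zero =>
    simp only [Nat.cast_zero, zero_add, pow_zero, pow_one, mul_one]
    nlinarith
  | succ m ih =>
    have h1 : (L + a) * (L + a) ^ (m + 2) ≤ (L + a) * (L ^ (m + 2) + (m + 2) * a * L ^ (m + 1) +
      ((m + 2) * (m + 1) / 2) * a ^ 2 * (L + a) ^ m) := mul_le_mul_of_nonneg_left ih (by linarith)
    have h2 : L ^ (m + 1) ≤ (L + a) ^ (m + 1) := pow_le_pow_left₀ hL (by linarith) _
    have h3 : ((m : ℝ) + 2) * a ^ 2 * L ^ (m + 1) ≤ ((m : ℝ) + 2) * a ^ 2 * (L + a) ^ (m + 1) :=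
      mul_le_mul_of_nonneg_left h2 (by positivity)
    push_cast
    calc (L + a) ^ (m + 1 + 2) = (L + a) * (L + a) ^ (m + 2) := by ring
      _ ≤ _ := h1
      _ = L ^ (m + 1 + 2) + ((m : ℝ) + 1 + 2) * a * L ^ (m + 1 + 1) +
          ((m : ℝ) + 2) * a ^ 2 * L ^ (m + 1) +
          (((m : ℝ) + 2) * (m + 1) / 2) * a ^ 2 * (L + a) ^ (m + 1) := by ring
      _ ≤ L ^ (m + 1 + 2) + ((m : ℝ) + 1 + 2) * a * L ^ (m + 1 + 1) +
          ((m : ℝ) + 2) * a ^ 2 * (L + a) ^ (m + 1) +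
          (((m : ℝ) + 2) * (m + 1) / 2) * a ^ 2 * (L + a) ^ (m + 1) := by linarith
      _ = _ := by ring

theorem el_bern {L a : ℝ} (hL : 0 ≤ L) (ha : 0 ≤ a) (m : ℕ) :
    L ^ (m + 1) + (m + 1) * a * L ^ m ≤ (L + a) ^ (m + 1) := by
  induction m with
  | zero => simp
  | succ m ih =>
    have h1 : (L + a) * (L ^ (m + 1) + (m + 1) * a * L ^ m) ≤ (L + a) * (L + a) ^ (m + 1) :=
      mul_le_mul_of_nonneg_left ih (by linarith)
    have h2 : 0 ≤ ((m : ℝ) + 1) * a ^ 2 * L ^ m := by positivity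
    push_cast
    calc L ^ (m + 1 + 1) + ((m : ℝ) + 1 + 1) * a * L ^ (m + 1)
        ≤ L ^ (m + 1 + 1) + ((m : ℝ) + 1 + 1) * a * L ^ (m + 1) + ((m : ℝ) + 1) * a ^ 2 * L ^ m := by
          linarith
      _ = (L + a) * (L ^ (m + 1) + (m + 1) * a * L ^ m) := by ring
      _ ≤ _ := h1
      _ = _ := by ring

/-- the elementary symmetric sum -/
noncomputable def elS (x : ℕ → ℝ) (P : Finset ℕ) (k : ℕ) : ℝ :=
  ∑ s ∈ P.powersetCard k, ∏ p ∈ s, x p

theorem elS_zero (x : ℕ → ℝ) (P : Finset ℕ) : elS x P 0 = 1 := by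
  simp [elS]

theorem elS_one (x : ℕ → ℝ) (P : Finset ℕ) : elS x P 1 = ∑ p ∈ P, x p := by
  simp [elS, powersetCard_one]

theorem elS_insert (x : ℕ → ℝ) {P : Finset ℕ} {a : ℕ} (ha : a ∉ P) (k : ℕ) :
    elS x (insert a P) (k + 1) = elS x P (k + 1) + x a * elS x P k := by
  unfold elS
  rw [powersetCard_succ_insert ha, sum_union, sum_image]
  · rw [mul_sum]
    congr 1
    refine sum_congr rfl fun s hs => ?_
    have has : a ∉ s := fun h => ha ((mem_powersetCard.1 hs).1 h)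
    rw [prod_insert has]
  · intro s hs t ht h
    have has : a ∉ s := fun h => ha ((mem_powersetCard.1 hs).1 h)
    have hat : a ∉ t := fun h => ha ((mem_powersetCard.1 ht).1 h)
    rw [← erase_insert has, ← erase_insert hat, h]
  · rw [disjoint_left]
    intro s hs hs'
    obtain ⟨t, -, rfl⟩ := mem_image.1 hs'
    exact ha ((mem_powersetCard.1 hs).1 (mem_insert_self a t))

theorem elS_ge (x : ℕ → ℝ) (hx : ∀ n, 0 ≤ x n) (P : Finset ℕ) : ∀ m : ℕ,
    (∑ p ∈ P, x p) ^ (m + 2) - ((m + 2) * (m + 1) / 2) * (∑ p ∈ P, x p ^ 2) * (∑ p ∈ P, x p) ^ m ≤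
      ((m + 2).factorial : ℝ) * elS x P (m + 2) := by
  classical
  induction P using Finset.induction_on with
  | empty =>
    intro m
    simp only [elS, sum_empty, mul_zero, zero_mul, sub_zero]
    rw [zero_pow (by omega)]
    exact mul_nonneg (by positivity) (sum_nonneg fun s _ => prod_nonneg fun p _ => hx p)
  | insert a P ha ih =>
    intro m
    rw [sum_insert ha, sum_insert ha, elS_insert x ha]
    set L := ∑ p ∈ P, x p with hL
    set S := ∑ p ∈ P, x p ^ 2 with hS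
    have hL0 : 0 ≤ L := sum_nonneg fun p _ => hx p
    have hS0 : 0 ≤ S := sum_nonneg fun p _ => by positivity
    have ha0 := hx a
    have hf : (((m + 2).factorial : ℕ) : ℝ) = ((m : ℝ) + 2) * (((m + 1).factorial : ℕ) : ℝ) := by
      rw [Nat.factorial_succ (m + 1)]
      push_cast
      ring
    have key : ((m + 2).factorial : ℝ) * (elS x P (m + 2) + x a * elS x P (m + 1)) =
        ((m + 2).factorial : ℝ) * elS x P (m + 2) +
          ((m : ℝ) + 2) * x a * (((m + 1).factorial : ℝ) * elS x P (m + 1)) := by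
      rw [mul_add, mul_comm (x a) (elS x P (m + 1)), ← mul_assoc ((m + 2).factorial : ℝ)
        (elS x P (m + 1)) (x a)]
      nth_rewrite 2 [hf]
      ring
    rw [key, add_comm (x a) L, add_comm (x a ^ 2) S]
    have h1 := ih m
    rcases m with _ | m
    · rw [elS_one] at *
      simp only [Nat.cast_zero, zero_add, pow_zero, mul_one, Nat.factorial_one, Nat.cast_one,
        one_mul] at h1 ⊢
      rw [← hL]
      nlinarith
    · have h2 := ih m
      have t := el_taylor hL0 ha0 (m + 1)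
      have b := el_bern hL0 ha0 m
      push_cast at h1 h2 t ⊢
      have h3 : ((m : ℝ) + 1 + 2) * x a * (L ^ (m + 2) -
          (((m : ℝ) + 2) * (m + 1) / 2) * S * L ^ m) ≤
          ((m : ℝ) + 1 + 2) * x a * (((m + 2).factorial : ℝ) * elS x P (m + 2)) :=
        mul_le_mul_of_nonneg_left h2 (by positivity)
      have h4 : (((m : ℝ) + 1 + 2) * (m + 1 + 1) / 2) * S * (L ^ (m + 1) + (m + 1) * x a * L ^ m) ≤
          (((m : ℝ) + 1 + 2) * (m + 1 + 1) / 2) * S * (L + x a) ^ (m + 1) :=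
        mul_le_mul_of_nonneg_left b (by positivity)
      have e1 : m + 1 + 2 = m + 3 := rfl
      have e2 : m + 1 + 1 = m + 2 := rfl
      nlinarith [h1, h3, h4, t]

theorem sum_sq_le {z y : ℕ} (hz : 1 ≤ z) : ∑ p ∈ PP z y, (1 / (p : ℝ)) ^ 2 ≤ 1 / (z : ℝ) := by
  rcases le_or_gt z y with h | h
  · have h1 : ∑ p ∈ PP z y, (1 / (p : ℝ)) ^ 2 ≤ ∑ i ∈ Ioc z y, ((i : ℝ) ^ 2)⁻¹ := by
      have h2 : PP z y ⊆ Ioc z y := by
        intro p hp
        simp only [PP, mem_filter, mem_Icc] at hp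
        exact mem_Ioc.2 ⟨hp.2.2, hp.1.2⟩
      refine le_trans (le_of_eq (sum_congr rfl fun p _ => ?_))
        (sum_le_sum_of_subset_of_nonneg h2 fun p _ _ => by positivity)
      rw [one_div, inv_pow]
    have h2 := sum_Ioc_inv_sq_le_sub (α := ℝ) (k := z) (n := y) (by omega) h
    have h3 : (0 : ℝ) ≤ (y : ℝ)⁻¹ := by positivity
    rw [one_div]
    linarith
  · have h1 : PP z y = ∅ := by
      rw [eq_empty_iff_forall_notMem]
      intro p hp
      simp only [PP, mem_filter, mem_Icc] at hp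
      omega
    rw [h1, sum_empty]
    positivity

theorem elem_ge {z y k : ℕ} (hz : 1 ≤ z) (hk : (k : ℝ) ≤ 2 * LL (PP z y)) :
    (1 - 2 / (z : ℝ)) * (LL (PP z y) ^ k / (k.factorial : ℝ)) ≤
      ∑ s ∈ (PP z y).powersetCard k, ∏ p ∈ s, 1 / (p : ℝ) := by
  have hz0 : (0 : ℝ) < (z : ℝ) := by exact_mod_cast hz
  have hL0 : 0 ≤ LL (PP z y) := sum_nonneg fun p _ => by positivity
  have h2z : (0 : ℝ) ≤ 2 / (z : ℝ) := by positivity
  change _ ≤ elS (fun p : ℕ => 1 / (p : ℝ)) (PP z y) k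
  rcases k with _ | _ | m
  · rw [elS_zero]
    simp only [pow_zero, Nat.factorial_zero, Nat.cast_one, div_one, mul_one]
    linarith
  · rw [elS_one]
    simp only [zero_add, pow_one, Nat.factorial_one, Nat.cast_one, div_one]
    have h1 : LL (PP z y) = ∑ p ∈ PP z y, 1 / (p : ℝ) := rfl
    rw [← h1]
    nlinarith
  · have h1 := elS_ge (fun p : ℕ => 1 / (p : ℝ)) (fun n => by positivity) (PP z y) m
    have h2 : ∑ p ∈ PP z y, (1 / (p : ℝ)) = LL (PP z y) := rfl
    simp only [h2] at h1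
    set L := LL (PP z y) with hL
    set S := ∑ p ∈ PP z y, (1 / (p : ℝ)) ^ 2 with hS
    have hS1 : S ≤ 1 / (z : ℝ) := sum_sq_le hz
    have hS0 : 0 ≤ S := sum_nonneg fun p _ => by positivity
    have hf : (0 : ℝ) < ((m + 1 + 1).factorial : ℝ) := by exact_mod_cast Nat.factorial_pos _
    have hkk : ((m : ℝ) + 2) ≤ 2 * L := by
      push_cast at hk
      linarith
    have hc : ((m : ℝ) + 2) * (m + 1) / 2 ≤ 2 * L ^ 2 := by
      have h5 : ((m : ℝ) + 2) * (m + 1) ≤ (2 * L) * (2 * L) :=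
        mul_le_mul hkk (by linarith) (by positivity) (by linarith)
      nlinarith
    have hm : (((m : ℝ) + 2) * (m + 1) / 2) * S * L ^ m ≤ 2 / (z : ℝ) * L ^ (m + 2) := by
      calc (((m : ℝ) + 2) * (m + 1) / 2) * S * L ^ m ≤ (2 * L ^ 2) * (1 / (z : ℝ)) * L ^ m := by
            apply mul_le_mul_of_nonneg_right _ (by positivity)
            exact mul_le_mul hc hS1 hS0 (by positivity)
        _ = _ := by ring
    rw [← mul_div_assoc, div_le_iff₀ hf]
    have e : m + 1 + 1 = m + 2 := rfl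
    rw [e]
    nlinarith

end Pool.Agent.Helper26.TE
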