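import Pool.Agent.Helper26.TE.Defs
import Pool.Agent.Helper26.TD.LowerExact

/-!
# TE-7 (MP_277c78_nt): the mean of `Ω` over the numbers prime to the primes in `(z, y]`

`Ω c` is the number of prime powers `q ∣ c` (`TD.card_pp`); for `c ∈ CF` they are powers of primes outside
`PP z y`, `c = q c'` with `c' ∈ CF`, so the left side is at most `(∑ q, 1 / q) * ∑ c, 1 / c` over the prime powers
`q ≤ X` of primes `p ≤ z` or `y < p`: the primes give `W z + (W X - W y)`, the others at most `1`.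
-/

set_option autoImplicit false

namespace Pool.Agent.Helper26.TE

open Finset Filter Topology
open Pool.Agent.Helper16.UB (Admissible M W PL mem_PL)
open Pool.Agent.Helper26.TD

/-- the prime powers up to `N` which are not prime -/
private def NP (N : ℕ) : Finset ℕ :=
  (Icc 1 N).filter fun q => IsPrimePow q ∧ ¬ q.Prime

private theorem pp_geom {p : ℝ} (hp : 2 ≤ p) (n : ℕ) (hn : 1 ≤ n) :
    ∑ i ∈ Icc 2 n, 1 / p ^ i ≤ 1 / (p * (p - 1)) - 1 / (p ^ n * (p - 1)) := by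
  have hp1 : 0 < p - 1 := by linarith
  have hp0 : 0 < p := by linarith
  induction n, hn using Nat.le_induction with
  | base => simp
  | succ n hn ih =>
    rw [Finset.sum_Icc_succ_top (by omega)]
    have h1 : 1 / p ^ (n + 1) = 1 / (p ^ n * (p - 1)) - 1 / (p ^ (n + 1) * (p - 1)) := by
      field_simp
      ring
    linarith

private theorem pp_tele (n : ℕ) (hn : 1 ≤ n) :
    ∑ p ∈ Icc 2 n, 1 / ((p : ℝ) * ((p : ℝ) - 1)) ≤ 1 - 1 / (n : ℝ) := by
  induction n, hn using Nat.le_induction with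
  | base => simp
  | succ n hn ih =>
    rw [Finset.sum_Icc_succ_top (by omega)]
    have hn0 : (0 : ℝ) < n := by exact_mod_cast (by omega : 0 < n)
    have h1 : 1 / (((n + 1 : ℕ) : ℝ) * (((n + 1 : ℕ) : ℝ) - 1)) =
        1 / (n : ℝ) - 1 / ((n + 1 : ℕ) : ℝ) := by
      push_cast
      rw [add_sub_cancel_right]
      field_simp
      ring
    linarith

private theorem pp_two (N : ℕ) :
    ∑ x ∈ Icc 2 N ×ˢ Icc 2 N, 1 / (x.1 : ℝ) ^ x.2 ≤ 1 := by
  rcases Nat.eq_zero_or_pos N with h0 | h0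
  · subst h0
    simp
  rw [Finset.sum_product]
  have h1 : ∀ p ∈ Icc 2 N, ∑ i ∈ Icc 2 N, 1 / (p : ℝ) ^ i ≤ 1 / ((p : ℝ) * ((p : ℝ) - 1)) := by
    intro p hp
    rw [mem_Icc] at hp
    have hp2 : (2 : ℝ) ≤ p := by exact_mod_cast hp.1
    refine (pp_geom hp2 N h0).trans ?_
    have h2 : 0 ≤ 1 / ((p : ℝ) ^ N * ((p : ℝ) - 1)) := by
      have : (0 : ℝ) < (p : ℝ) - 1 := by linarith
      positivity
    linarith
  refine (Finset.sum_le_sum h1).trans ((pp_tele N h0).trans ?_)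
  have h3 : (0 : ℝ) ≤ 1 / (N : ℝ) := by positivity
  linarith

private theorem pp_sum (N : ℕ) : ∑ q ∈ NP N, 1 / (q : ℝ) ≤ 1 := by
  have h1 : ∀ q ∈ NP N, 1 / (q : ℝ) ≤
      ∑ x ∈ Icc 2 N ×ˢ Icc 2 N, (if x.1 ^ x.2 = q then 1 / (x.1 : ℝ) ^ x.2 else 0) := by
    intro q hq
    rw [NP, mem_filter, mem_Icc] at hq
    obtain ⟨⟨hq1, hqN⟩, hpp, hnp⟩ := hq
    rw [isPrimePow_nat_iff] at hpp
    obtain ⟨p, i, hp, hi, rfl⟩ := hpp
    have hi2 : 2 ≤ i := by
      by_contra h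
      have : i = 1 := by omega
      subst this
      rw [pow_one] at hnp
      exact hnp hp
    have hiN : i < p ^ i := Nat.lt_pow_self hp.one_lt
    have hpN : p ≤ p ^ i := Nat.le_self_pow (by omega) p
    have hmem : (p, i) ∈ Icc 2 N ×ˢ Icc 2 N := by
      rw [mem_product, mem_Icc, mem_Icc]
      exact ⟨⟨hp.two_le, hpN.trans hqN⟩, hi2, hiN.le.trans hqN⟩
    have h2 := Finset.single_le_sum (s := Icc 2 N ×ˢ Icc 2 N)
      (f := fun x : ℕ × ℕ => if x.1 ^ x.2 = p ^ i then 1 / (x.1 : ℝ) ^ x.2 else 0)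
      (fun x _ => by
        split_ifs
        · positivity
        · exact le_rfl) hmem
    rw [if_pos rfl] at h2
    push_cast
    exact h2
  refine (Finset.sum_le_sum h1).trans ?_
  rw [Finset.sum_comm]
  refine le_trans (Finset.sum_le_sum fun x _ => ?_) (pp_two N)
  rw [Finset.sum_ite_eq]
  split_ifs
  · exact le_rfl
  · positivity

/-- the prime powers up to `X` prime to `P` -/
private def QQ (P : Finset ℕ) (X : ℕ) : Finset ℕ :=
  (Icc 1 X).filter fun q => IsPrimePow q ∧ ∀ p ∈ P, ¬ p ∣ q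

/-- `Ω c` for `c ∈ CF` -/
private theorem om_eq {P : Finset ℕ} {X c : ℕ} (hc : c ∈ CF P X) :
    ArithmeticFunction.cardFactors c = ((QQ P X).filter fun q => q ∣ c).card := by
  obtain ⟨h1, h2⟩ := mem_filter.mp hc
  obtain ⟨h3, h4⟩ := mem_Icc.mp h1
  rw [← card_pp (a := c) (by omega)]
  congr 1
  ext q
  rw [mem_filter, mem_filter, Nat.mem_divisors, QQ, mem_filter, mem_Icc]
  constructor
  · rintro ⟨⟨h5, _⟩, h6⟩
    have h7 : 0 < q := Nat.pos_of_dvd_of_pos h5 (by omega)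
    exact ⟨⟨⟨h7, (Nat.le_of_dvd (by omega) h5).trans h4⟩, h6,
      fun p hp hpq => h2 p hp (hpq.trans h5)⟩, h5⟩
  · rintro ⟨⟨_, h6, _⟩, h5⟩
    exact ⟨⟨h5, by omega⟩, h6⟩

/-- the multiples of `q` in `CF` -/
private theorem cf_one {P : Finset ℕ} {X q : ℕ} (hq : 1 ≤ q) :
    ∑ c ∈ CF P X, (if q ∣ c then 1 / (c : ℝ) else 0) ≤
      1 / (q : ℝ) * ∑ c ∈ CF P X, 1 / (c : ℝ) := by
  rw [← Finset.sum_filter]
  have h1 : ∀ a ∈ (CF P X).filter (fun a => q ∣ a),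
      1 / (a : ℝ) = 1 / (q : ℝ) * (1 / ((a / q : ℕ) : ℝ)) := by
    intro a ha
    rw [mem_filter] at ha
    obtain ⟨b, rfl⟩ := ha.2
    rw [Nat.mul_div_cancel_left b hq]
    push_cast
    rw [one_div_mul_one_div]
  rw [Finset.sum_congr rfl h1, ← Finset.mul_sum]
  refine mul_le_mul_of_nonneg_left ?_ (by positivity)
  have hinj : ∀ a ∈ (CF P X).filter (fun a => q ∣ a),
      ∀ a' ∈ (CF P X).filter (fun a => q ∣ a), a / q = a' / q → a = a' := by
    intro a ha a' ha' h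
    rw [mem_filter] at ha ha'
    rw [← Nat.div_mul_cancel ha.2, ← Nat.div_mul_cancel ha'.2, h]
  rw [← Finset.sum_image (f := fun b : ℕ => 1 / (b : ℝ)) (g := fun a => a / q)
    (fun a ha a' ha' h => hinj a ha a' ha' h)]
  refine Finset.sum_le_sum_of_subset_of_nonneg ?_ (fun b _ _ => by positivity)
  intro b hb
  rw [mem_image] at hb
  obtain ⟨a, ha, rfl⟩ := hb
  rw [mem_filter, CF, mem_filter, mem_Icc] at ha
  rw [CF, mem_filter, mem_Icc]
  refine ⟨⟨Nat.div_pos (Nat.le_of_dvd (by omega) ha.2) hq, (Nat.div_le_self _ _).trans ha.1.1.2⟩,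
    fun p hp hpa => ha.1.2 p hp (hpa.trans (Nat.div_dvd_of_dvd ha.2))⟩

/-- the sum of the reciprocals of the prime powers -/
private theorem qq_sum {z y X : ℕ} (hyX : y ≤ X) :
    ∑ q ∈ QQ (PP z y) X, 1 / (q : ℝ) ≤ W z + (W X - W y) + 1 := by
  have hsub : QQ (PP z y) X ⊆ (PL z ∪ (PL X \ PL y)) ∪ NP X := by
    intro q hq
    rw [QQ, mem_filter, mem_Icc] at hq
    obtain ⟨⟨h1, h2⟩, h3, h4⟩ := hq
    rw [mem_union]
    by_cases hp : q.Prime
    · left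
      rw [mem_union, Finset.mem_sdiff, mem_PL, mem_PL, mem_PL]
      by_cases hz : q ≤ z
      · exact Or.inl ⟨hz, hp⟩
      · right
        refine ⟨⟨h2, hp⟩, fun h5 => h4 q ?_ dvd_rfl⟩
        rw [PP, mem_filter, mem_Icc]
        exact ⟨⟨h1, h5.1⟩, hp, by omega⟩
    · right
      rw [NP, mem_filter, mem_Icc]
      exact ⟨⟨h1, h2⟩, h3, hp⟩
  have hnn : ∀ s : Finset ℕ, 0 ≤ ∑ q ∈ s, 1 / (q : ℝ) := fun s =>
    Finset.sum_nonneg fun q _ => by positivity
  have hun : ∀ s t : Finset ℕ, ∑ q ∈ s ∪ t, 1 / (q : ℝ) ≤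
      ∑ q ∈ s, 1 / (q : ℝ) + ∑ q ∈ t, 1 / (q : ℝ) := by
    intro s t
    have h := Finset.sum_union_inter (s₁ := s) (s₂ := t) (f := fun q : ℕ => 1 / (q : ℝ))
    have h' := hnn (s ∩ t)
    linarith
  have h1 : ∑ q ∈ QQ (PP z y) X, 1 / (q : ℝ) ≤
      ∑ q ∈ (PL z ∪ (PL X \ PL y)) ∪ NP X, 1 / (q : ℝ) :=
    Finset.sum_le_sum_of_subset_of_nonneg hsub fun q _ _ => by positivity
  have h2 := hun (PL z ∪ (PL X \ PL y)) (NP X)
  have h3 := hun (PL z) (PL X \ PL y)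
  have h4 := pp_sum X
  have hPL : PL y ⊆ PL X := by
    intro p hp
    rw [mem_PL] at hp ⊢
    exact ⟨hp.1.trans hyX, hp.2⟩
  have h5 := Finset.sum_sdiff (f := fun q : ℕ => 1 / (q : ℝ)) hPL
  have h6 : ∑ q ∈ PL X \ PL y, 1 / (q : ℝ) = W X - W y := by
    unfold W
    linarith
  have h7 : ∑ q ∈ PL z, 1 / (q : ℝ) = W z := rfl
  linarith

theorem om_moment {z y X : ℕ} (hzy : z ≤ y) (hyX : y ≤ X) :
    ∑ c ∈ CF (PP z y) X, (ArithmeticFunction.cardFactors c : ℝ) * (1 / (c : ℝ)) ≤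
      (W z + (W X - W y) + 1) * ∑ c ∈ CF (PP z y) X, 1 / (c : ℝ) := by
  have h1 : ∀ c ∈ CF (PP z y) X, (ArithmeticFunction.cardFactors c : ℝ) * (1 / (c : ℝ)) =
      ∑ q ∈ QQ (PP z y) X, (if q ∣ c then 1 / (c : ℝ) else 0) := by
    intro c hc
    rw [← Finset.sum_filter, Finset.sum_const, nsmul_eq_mul, om_eq hc]
  rw [Finset.sum_congr rfl h1, Finset.sum_comm]
  have h2 : ∀ q ∈ QQ (PP z y) X, ∑ c ∈ CF (PP z y) X, (if q ∣ c then 1 / (c : ℝ) else 0) ≤
      1 / (q : ℝ) * ∑ c ∈ CF (PP z y) X, 1 / (c : ℝ) := by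
    intro q hq
    rw [QQ, mem_filter, mem_Icc] at hq
    exact cf_one hq.1.1
  refine (Finset.sum_le_sum h2).trans ?_
  rw [← Finset.sum_mul]
  exact mul_le_mul_of_nonneg_right (qq_sum hyX) (Finset.sum_nonneg fun c _ => by positivity)

end Pool.Agent.Helper26.TE
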