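import Pool.Agent.Helper26.TE.Basic
import Pool.Agent.Helper26.TD.Tails

/-!
# TE-3 (MP_277c78_nt): change of the parameter of a Poisson law and a shift, lower bound

Everything is written in terms of `u = l ^ (1 / 12)`: `l = u ^ 12`, `l ^ (1 / 4) = u ^ 3`, and the window is
`u ^ 12 - 2 u ^ 8 ≤ k ≤ u ^ 12 + u ^ 8`. In the window
`exp (-L) L ^ (k - J) / (k - J)! ≥ (1 - 4 / u) (1 - 3 / u) exp (-l) l ^ k / k!` (`term`): with `a = l - L`,
`(L / l) ^ (k - J) ≥ exp (- a (k - J) / L)` and `k! ≥ (k - J)! (k - J + 1) ^ J`. Outside the window there is at most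
`exp (- u ^ 4 / 2) + exp (- u ^ 4 / 4)` (`low_tail`, `upper`), negligible against `GG_low`.
-/

set_option autoImplicit false

namespace Pool.Agent.Helper26.TE

open Finset Filter Topology
open Pool.Agent.Helper16.UB (Admissible M W)
open Pool.Agent.Helper26.TD

private lemma pows {u : ℝ} (hu : 4 ≤ u) : 64 ≤ u ^ 3 ∧ 1024 * u ^ 3 ≤ u ^ 8 ∧ 256 * u ^ 8 ≤ u ^ 12 := by
  have h3 : (4 : ℝ) ^ 3 ≤ u ^ 3 := pow_le_pow_left₀ (by norm_num) hu 3
  have h4 : (4 : ℝ) ^ 4 ≤ u ^ 4 := pow_le_pow_left₀ (by norm_num) hu 4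
  have h5 : (4 : ℝ) ^ 5 ≤ u ^ 5 := pow_le_pow_left₀ (by norm_num) hu 5
  have hp3 : 0 ≤ u ^ 3 := by positivity
  have hp8 : 0 ≤ u ^ 8 := by positivity
  refine ⟨by linarith, ?_, ?_⟩
  · calc 1024 * u ^ 3 = 4 ^ 5 * u ^ 3 := by norm_num
      _ ≤ u ^ 5 * u ^ 3 := mul_le_mul_of_nonneg_right h5 hp3
      _ = u ^ 8 := by ring
  · calc 256 * u ^ 8 = 4 ^ 4 * u ^ 8 := by norm_num
      _ ≤ u ^ 4 * u ^ 8 := mul_le_mul_of_nonneg_right h4 hp8
      _ = u ^ 12 := by ring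

private lemma term {u L : ℝ} {J k : ℕ} (hu : 4 ≤ u) (hL1 : u ^ 12 - u ^ 3 ≤ L) (hL2 : L ≤ u ^ 12)
    (hJ : (J : ℝ) ≤ u ^ 3) (hk1 : u ^ 12 - 2 * u ^ 8 ≤ k) (hk2 : (k : ℝ) ≤ u ^ 12 + u ^ 8) :
    (1 - 4 / u) * (1 - 3 / u) * (Real.exp (-(u ^ 12)) * ((u ^ 12) ^ k / (k.factorial : ℝ))) ≤
      Real.exp (-L) * (L ^ (k - J) / ((k - J).factorial : ℝ)) := by
  obtain ⟨g3, g38, g812⟩ := pows hu
  have hu0 : 0 < u := by linarith
  have hJk : J ≤ k := by
    have : (J : ℝ) ≤ k := by linarith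
    exact_mod_cast this
  obtain ⟨m, rfl⟩ : ∃ m, k = m + J := ⟨k - J, by omega⟩
  rw [Nat.add_sub_cancel]
  push_cast at hk1 hk2
  have hl0 : 0 < u ^ 12 := by positivity
  have hL0 : 0 < L := by linarith
  have hLhalf : u ^ 12 ≤ 2 * L := by linarith
  have e4 : 0 ≤ 1 - 4 / u := by
    rw [sub_nonneg, div_le_one hu0]
    exact hu
  have e3 : 0 ≤ 1 - 3 / u := by
    rw [sub_nonneg, div_le_one hu0]
    linarith
  -- the first factor
  have f1 : (1 - 4 / u) * (Real.exp (-(u ^ 12)) * (u ^ 12) ^ m) ≤ Real.exp (-L) * L ^ m := by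
    have h1 : u ^ 12 ≤ L * Real.exp ((u ^ 12 - L) / L) := by
      have h2 := Real.add_one_le_exp ((u ^ 12 - L) / L)
      have h3 : L * ((u ^ 12 - L) / L + 1) = u ^ 12 := by field_simp; ring
      calc u ^ 12 = L * ((u ^ 12 - L) / L + 1) := h3.symm
        _ ≤ _ := mul_le_mul_of_nonneg_left h2 hL0.le
    have h2 : (u ^ 12) ^ m ≤ L ^ m * Real.exp ((m : ℝ) * ((u ^ 12 - L) / L)) := by
      calc (u ^ 12) ^ m ≤ (L * Real.exp ((u ^ 12 - L) / L)) ^ m := pow_le_pow_left₀ hl0.le h1 m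
        _ = L ^ m * Real.exp ((m : ℝ) * ((u ^ 12 - L) / L)) := by
          rw [mul_pow, ← Real.exp_nat_mul]
    have h3 : (1 - 4 / u) * (Real.exp (-(u ^ 12)) * Real.exp ((m : ℝ) * ((u ^ 12 - L) / L))) ≤
        Real.exp (-L) := by
      have h4 : 1 - 4 / u ≤ Real.exp ((u ^ 12 - L) - (m : ℝ) * ((u ^ 12 - L) / L)) := by
        have h5 := Real.add_one_le_exp ((u ^ 12 - L) - (m : ℝ) * ((u ^ 12 - L) / L))
        have h6 : (m : ℝ) * ((u ^ 12 - L) / L) - (u ^ 12 - L) ≤ 4 / u := by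
          have h7 : (m : ℝ) * ((u ^ 12 - L) / L) - (u ^ 12 - L) = (u ^ 12 - L) * ((m : ℝ) - L) / L := by
            field_simp
          rw [h7, div_le_div_iff₀ hL0 hu0]
          have h8 : (m : ℝ) - L ≤ 2 * u ^ 8 := by
            have : (0 : ℝ) ≤ J := Nat.cast_nonneg _
            linarith
          have h9 : (u ^ 12 - L) * ((m : ℝ) - L) ≤ u ^ 3 * (2 * u ^ 8) := by
            calc (u ^ 12 - L) * ((m : ℝ) - L) ≤ (u ^ 12 - L) * (2 * u ^ 8) :=
                  mul_le_mul_of_nonneg_left h8 (by linarith)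
              _ ≤ u ^ 3 * (2 * u ^ 8) := mul_le_mul_of_nonneg_right (by linarith) (by positivity)
          calc (u ^ 12 - L) * ((m : ℝ) - L) * u ≤ u ^ 3 * (2 * u ^ 8) * u :=
                mul_le_mul_of_nonneg_right h9 hu0.le
            _ = 2 * u ^ 12 := by ring
            _ ≤ 4 * L := by linarith
        linarith
      calc (1 - 4 / u) * (Real.exp (-(u ^ 12)) * Real.exp ((m : ℝ) * ((u ^ 12 - L) / L)))
          ≤ Real.exp ((u ^ 12 - L) - (m : ℝ) * ((u ^ 12 - L) / L)) *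
            (Real.exp (-(u ^ 12)) * Real.exp ((m : ℝ) * ((u ^ 12 - L) / L))) :=
            mul_le_mul_of_nonneg_right h4 (by positivity)
        _ = Real.exp (-L) := by
          rw [← Real.exp_add, ← Real.exp_add]
          congr 1
          ring
    calc (1 - 4 / u) * (Real.exp (-(u ^ 12)) * (u ^ 12) ^ m)
        ≤ (1 - 4 / u) * (Real.exp (-(u ^ 12)) *
          (L ^ m * Real.exp ((m : ℝ) * ((u ^ 12 - L) / L)))) :=
          mul_le_mul_of_nonneg_left (mul_le_mul_of_nonneg_left h2 (Real.exp_pos _).le) e4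
      _ = (1 - 4 / u) * (Real.exp (-(u ^ 12)) * Real.exp ((m : ℝ) * ((u ^ 12 - L) / L))) * L ^ m := by
          ring
      _ ≤ Real.exp (-L) * L ^ m := mul_le_mul_of_nonneg_right h3 (by positivity)
  -- the second factor
  have f2 : (1 - 3 / u) * (u ^ 12) ^ J ≤ ((m : ℝ) + 1) ^ J := by
    have h1 : (1 - 3 / u ^ 4) * u ^ 12 ≤ (m : ℝ) + 1 := by
      have h2 : (1 - 3 / u ^ 4) * u ^ 12 = u ^ 12 - 3 * u ^ 8 := by
        field_simp
      rw [h2]
      linarith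
    have h3 : 0 ≤ 1 - 3 / u ^ 4 := by
      rw [sub_nonneg, div_le_one (by positivity)]
      have : (4 : ℝ) ^ 4 ≤ u ^ 4 := pow_le_pow_left₀ (by norm_num) hu 4
      linarith
    have h4 : 1 - 3 / u ≤ (1 - 3 / u ^ 4) ^ J := by
      have h5 := one_add_mul_le_pow (a := -(3 / u ^ 4)) (by linarith) J
      have h6 : (J : ℝ) * (3 / u ^ 4) ≤ 3 / u := by
        calc (J : ℝ) * (3 / u ^ 4) ≤ u ^ 3 * (3 / u ^ 4) :=
              mul_le_mul_of_nonneg_right hJ (by positivity)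
          _ = 3 / u := by field_simp
      calc 1 - 3 / u ≤ 1 + (J : ℝ) * (-(3 / u ^ 4)) := by linarith
        _ ≤ (1 + -(3 / u ^ 4)) ^ J := h5
        _ = (1 - 3 / u ^ 4) ^ J := by ring_nf
    calc (1 - 3 / u) * (u ^ 12) ^ J ≤ (1 - 3 / u ^ 4) ^ J * (u ^ 12) ^ J :=
          mul_le_mul_of_nonneg_right h4 (by positivity)
      _ = ((1 - 3 / u ^ 4) * u ^ 12) ^ J := by rw [mul_pow]
      _ ≤ ((m : ℝ) + 1) ^ J := pow_le_pow_left₀ (mul_nonneg h3 hl0.le) h1 J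
  -- the factorials
  have f3 : (m.factorial : ℝ) * ((m : ℝ) + 1) ^ J ≤ ((m + J).factorial : ℝ) := by
    exact_mod_cast Nat.factorial_mul_pow_le_factorial
  have hf0 : (0 : ℝ) < (m.factorial : ℝ) := by exact_mod_cast Nat.factorial_pos m
  have hf1 : (0 : ℝ) < ((m + J).factorial : ℝ) := by exact_mod_cast Nat.factorial_pos (m + J)
  have f4 : (1 - 4 / u) * (1 - 3 / u) * (Real.exp (-(u ^ 12)) * (u ^ 12) ^ (m + J)) ≤
      Real.exp (-L) * L ^ m * ((m : ℝ) + 1) ^ J := by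
    calc (1 - 4 / u) * (1 - 3 / u) * (Real.exp (-(u ^ 12)) * (u ^ 12) ^ (m + J))
        = ((1 - 4 / u) * (Real.exp (-(u ^ 12)) * (u ^ 12) ^ m)) * ((1 - 3 / u) * (u ^ 12) ^ J) := by
          rw [pow_add]
          ring
      _ ≤ (Real.exp (-L) * L ^ m) * ((m : ℝ) + 1) ^ J := by
          apply mul_le_mul f1 f2 (mul_nonneg e3 (by positivity)) (by positivity)
  calc (1 - 4 / u) * (1 - 3 / u) * (Real.exp (-(u ^ 12)) * ((u ^ 12) ^ (m + J) / ((m + J).factorial : ℝ)))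
      = ((1 - 4 / u) * (1 - 3 / u) * (Real.exp (-(u ^ 12)) * (u ^ 12) ^ (m + J))) /
        ((m + J).factorial : ℝ) := by ring
    _ ≤ (Real.exp (-L) * L ^ m * ((m : ℝ) + 1) ^ J) / ((m + J).factorial : ℝ) :=
        div_le_div_of_nonneg_right f4 hf1.le
    _ ≤ (Real.exp (-L) * L ^ m * ((m : ℝ) + 1) ^ J) / ((m.factorial : ℝ) * ((m : ℝ) + 1) ^ J) :=
        div_le_div_of_nonneg_left (by positivity) (by positivity) f3
    _ = Real.exp (-L) * (L ^ m / (m.factorial : ℝ)) := by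
        have : ((m : ℝ) + 1) ^ J ≠ 0 := by positivity
        field_simp

/-- the upper tail -/
private lemma upper {u : ℝ} (hu : 4 ≤ u) {K : ℕ} (hK : u ^ 12 + u ^ 8 ≤ (K : ℝ)) (n : ℕ) :
    ∑ k ∈ (range n).filter (fun k => K ≤ k), (u ^ 12) ^ k / (k.factorial : ℝ) ≤
      Real.exp (u ^ 12) * Real.exp (-(u ^ 4 / 4)) := by
  have hu0 : 0 < u := by linarith
  set θ : ℝ := 1 / (2 * u ^ 4) with hθ
  have hθ0 : 0 < θ := by positivity
  have h4 : (4 : ℝ) ^ 4 ≤ u ^ 4 := pow_le_pow_left₀ (by norm_num) hu 4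
  have hθ1 : θ ≤ 1 := by
    rw [hθ, div_le_one (by positivity)]
    linarith
  have hexp : Real.exp θ ≤ 1 + θ + θ ^ 2 := by
    have h := Real.abs_exp_sub_one_sub_id_le (x := θ) (by rw [abs_of_pos hθ0]; exact hθ1)
    have h' := (abs_le.1 h).2
    linarith
  have h1 : ∀ k ∈ (range n).filter (fun k => K ≤ k), (u ^ 12) ^ k / (k.factorial : ℝ) ≤
      Real.exp (-(θ * (u ^ 12 + u ^ 8))) * ((u ^ 12 * Real.exp θ) ^ k / (k.factorial : ℝ)) := by
    intro k hk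
    have hkK : (K : ℝ) ≤ k := by exact_mod_cast (mem_filter.1 hk).2
    have h2 : 1 ≤ Real.exp (-(θ * (u ^ 12 + u ^ 8))) * Real.exp θ ^ k := by
      rw [← Real.exp_nat_mul, ← Real.exp_add]
      apply Real.one_le_exp
      have : θ * (u ^ 12 + u ^ 8) ≤ θ * k := mul_le_mul_of_nonneg_left (hK.trans hkK) hθ0.le
      linarith
    calc (u ^ 12) ^ k / (k.factorial : ℝ) = 1 * ((u ^ 12) ^ k / (k.factorial : ℝ)) := (one_mul _).symm
      _ ≤ (Real.exp (-(θ * (u ^ 12 + u ^ 8))) * Real.exp θ ^ k) * ((u ^ 12) ^ k / (k.factorial : ℝ)) :=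
          mul_le_mul_of_nonneg_right h2 (by positivity)
      _ = _ := by
          rw [mul_pow]
          ring
  have h2 : ∑ k ∈ (range n).filter (fun k => K ≤ k), (u ^ 12 * Real.exp θ) ^ k / (k.factorial : ℝ) ≤
      Real.exp (u ^ 12 * Real.exp θ) := by
    refine le_trans (sum_le_sum_of_subset_of_nonneg (filter_subset _ _) ?_)
      (Real.sum_le_exp_of_nonneg (by positivity) n)
    intro k _ _
    positivity
  calc ∑ k ∈ (range n).filter (fun k => K ≤ k), (u ^ 12) ^ k / (k.factorial : ℝ)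
      ≤ ∑ k ∈ (range n).filter (fun k => K ≤ k), Real.exp (-(θ * (u ^ 12 + u ^ 8))) *
        ((u ^ 12 * Real.exp θ) ^ k / (k.factorial : ℝ)) := sum_le_sum h1
    _ = Real.exp (-(θ * (u ^ 12 + u ^ 8))) * ∑ k ∈ (range n).filter (fun k => K ≤ k),
        (u ^ 12 * Real.exp θ) ^ k / (k.factorial : ℝ) := by rw [mul_sum]
    _ ≤ Real.exp (-(θ * (u ^ 12 + u ^ 8))) * Real.exp (u ^ 12 * Real.exp θ) :=
        mul_le_mul_of_nonneg_left h2 (Real.exp_pos _).le
    _ = Real.exp (-(θ * (u ^ 12 + u ^ 8)) + u ^ 12 * Real.exp θ) := by rw [← Real.exp_add]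
    _ ≤ Real.exp (u ^ 12 + -(u ^ 4 / 4)) := by
        apply Real.exp_le_exp.2
        have h3 : u ^ 12 * Real.exp θ ≤ u ^ 12 * (1 + θ + θ ^ 2) :=
          mul_le_mul_of_nonneg_left hexp (by positivity)
        have h5 : u ^ 12 * (1 + θ + θ ^ 2) = u ^ 12 + u ^ 8 / 2 + u ^ 4 / 4 := by
          rw [hθ]
          field_simp
          ring
        have h6 : θ * (u ^ 12 + u ^ 8) = u ^ 8 / 2 + u ^ 4 / 2 := by
          rw [hθ]
          field_simp
        rw [h6]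
        linarith
    _ = _ := Real.exp_add _ _

private lemma exp_small {u : ℝ} (hu : 4 ≤ u) : Real.exp (-(u ^ 4 / 4)) ≤ 6144 / u ^ 16 := by
  have hu0 : 0 < u := by linarith
  have h1 := Real.pow_div_factorial_le_exp (u ^ 4 / 4) (by positivity) 4
  have h2 : (u ^ 4 / 4) ^ 4 / ((Nat.factorial 4 : ℕ) : ℝ) = u ^ 16 / 6144 := by
    have : ((Nat.factorial 4 : ℕ) : ℝ) = 24 := by norm_num [Nat.factorial]
    rw [this]
    ring
  rw [h2] at h1
  rw [Real.exp_neg]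
  calc (Real.exp (u ^ 4 / 4))⁻¹ ≤ (u ^ 16 / 6144)⁻¹ := inv_anti₀ (by positivity) h1
    _ = 6144 / u ^ 16 := by rw [inv_div]

/-- everything but the window is negligible -/
private lemma window {t : ℕ → ℝ} (ht0 : ∀ k, 0 ≤ t k) (ht1 : ∀ k, t k ≤ 1) {u : ℝ} (hu : 4 ≤ u) :
    Real.exp (-(u ^ 12)) * GG t (u ^ 12) ≤
      12288 / u ^ 16 + Real.exp (-(u ^ 12)) *
        ∑ k ∈ Ico ⌊u ^ 12 - u ^ 8⌋₊ ⌈u ^ 12 + u ^ 8⌉₊, t k * (u ^ 12) ^ k / (k.factorial : ℝ) := by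
  have hu0 : 0 < u := by linarith
  obtain ⟨g3, g38, g812⟩ := pows hu
  have hterm : ∀ k, t k * (u ^ 12) ^ k / (k.factorial : ℝ) ≤ (u ^ 12) ^ k / (k.factorial : ℝ) := by
    intro k
    rw [mul_div_assoc]
    exact mul_le_of_le_one_left (by positivity) (ht1 k)
  have hterm0 : ∀ k, 0 ≤ t k * (u ^ 12) ^ k / (k.factorial : ℝ) := by
    intro k
    have := ht0 k
    positivity
  set k0 : ℕ := ⌊u ^ 12 - u ^ 8⌋₊ with hk0
  set K : ℕ := ⌈u ^ 12 + u ^ 8⌉₊ with hK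
  have hk0R : (k0 : ℝ) ≤ u ^ 12 - u ^ 8 := Nat.floor_le (by linarith)
  have hKR : u ^ 12 + u ^ 8 ≤ (K : ℝ) := Nat.le_ceil _
  have hk0K : k0 ≤ K := by
    have : (k0 : ℝ) ≤ K := by
      have : 0 ≤ u ^ 8 := by positivity
      linarith
    exact_mod_cast this
  have hlow : ∑ k ∈ range k0, t k * (u ^ 12) ^ k / (k.factorial : ℝ) ≤
      Real.exp (u ^ 12) * Real.exp (-(u ^ 4 / 4)) := by
    have h1 := low_tail (L := u ^ 12) (δ := 1 / u ^ 4) (by positivity) (by positivity) (k0 := k0)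
      (by
        have : (1 - 1 / u ^ 4) * u ^ 12 = u ^ 12 - u ^ 8 := by field_simp
        rw [this]
        exact hk0R)
    have h2 : (1 / u ^ 4) ^ 2 * u ^ 12 / 2 = u ^ 4 / 2 := by field_simp
    rw [h2] at h1
    refine (sum_le_sum fun k _ => hterm k).trans (h1.trans ?_)
    apply mul_le_mul_of_nonneg_left _ (Real.exp_pos _).le
    apply Real.exp_le_exp.2
    have : 0 ≤ u ^ 4 := by positivity
    linarith
  have hGG : GG t (u ^ 12) ≤ ∑ k ∈ range K, t k * (u ^ 12) ^ k / (k.factorial : ℝ) +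
      Real.exp (u ^ 12) * Real.exp (-(u ^ 4 / 4)) := by
    unfold GG
    apply Real.tsum_le_of_sum_range_le hterm0
    intro n
    have h1 : ∑ k ∈ range n, t k * (u ^ 12) ^ k / (k.factorial : ℝ) =
        ∑ k ∈ (range n).filter (fun k => K ≤ k), t k * (u ^ 12) ^ k / (k.factorial : ℝ) +
        ∑ k ∈ (range n).filter (fun k => ¬ K ≤ k), t k * (u ^ 12) ^ k / (k.factorial : ℝ) :=
      (sum_filter_add_sum_filter_not _ _ _).symm
    have h2 : ∑ k ∈ (range n).filter (fun k => ¬ K ≤ k), t k * (u ^ 12) ^ k / (k.factorial : ℝ) ≤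
        ∑ k ∈ range K, t k * (u ^ 12) ^ k / (k.factorial : ℝ) := by
      apply sum_le_sum_of_subset_of_nonneg
      · intro k hk
        have := (mem_filter.1 hk).2
        exact mem_range.2 (by omega)
      · intro k _ _
        exact hterm0 k
    have h3 : ∑ k ∈ (range n).filter (fun k => K ≤ k), t k * (u ^ 12) ^ k / (k.factorial : ℝ) ≤
        Real.exp (u ^ 12) * Real.exp (-(u ^ 4 / 4)) :=
      (sum_le_sum fun k _ => hterm k).trans (upper hu hKR n)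
    rw [h1]
    linarith
  have hsplit : ∑ k ∈ range K, t k * (u ^ 12) ^ k / (k.factorial : ℝ) =
      ∑ k ∈ range k0, t k * (u ^ 12) ^ k / (k.factorial : ℝ) +
        ∑ k ∈ Ico k0 K, t k * (u ^ 12) ^ k / (k.factorial : ℝ) :=
    (sum_range_add_sum_Ico _ hk0K).symm
  rw [hsplit] at hGG
  have hsm := exp_small hu
  have he : Real.exp (-(u ^ 12)) * Real.exp (u ^ 12) = 1 := by
    rw [← Real.exp_add]
    simp
  calc Real.exp (-(u ^ 12)) * GG t (u ^ 12)
      ≤ Real.exp (-(u ^ 12)) * (Real.exp (u ^ 12) * Real.exp (-(u ^ 4 / 4)) +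
        ∑ k ∈ Ico k0 K, t k * (u ^ 12) ^ k / (k.factorial : ℝ) +
          Real.exp (u ^ 12) * Real.exp (-(u ^ 4 / 4))) :=
        mul_le_mul_of_nonneg_left (by linarith) (Real.exp_pos _).le
    _ = 2 * (Real.exp (-(u ^ 12)) * Real.exp (u ^ 12)) * Real.exp (-(u ^ 4 / 4)) +
        Real.exp (-(u ^ 12)) * ∑ k ∈ Ico k0 K, t k * (u ^ 12) ^ k / (k.factorial : ℝ) := by ring
    _ ≤ _ := by
        rw [he]
        have h1 : 2 * 1 * Real.exp (-(u ^ 4 / 4)) ≤ 12288 / u ^ 16 := by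
          have : (12288 : ℝ) / u ^ 16 = 2 * (6144 / u ^ 16) := by ring
          rw [this]
          linarith
        linarith

theorem pois_low {t : ℕ → ℝ} (ht0 : ∀ k, 0 ≤ t k) (ht1 : ∀ k, t k ≤ 1) (hta : Antitone t) {c : ℝ}
    (hc : 0 < c) {k0 : ℕ} (htc : ∀ k, k0 ≤ k → c / (k : ℝ) ≤ t k) {ε : ℝ} (hε : 0 < ε) :
    ∃ l0 : ℝ, ∀ l : ℝ, l0 ≤ l → ∀ L : ℝ, l - l ^ (1 / 4 : ℝ) ≤ L → L ≤ l →
      ∀ J : ℕ, (J : ℝ) ≤ l ^ (1 / 4 : ℝ) →
      (1 - ε) * (Real.exp (-l) * GG t l) ≤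
        Real.exp (-L) * ∑ k ∈ range (⌊2 * L⌋₊ + 1), t (k + J) * L ^ k / (k.factorial : ℝ) := by
  obtain ⟨l1, hl1⟩ := GG_low ht0 ht1 hta hc htc
  obtain ⟨e, he0, he1, heε⟩ : ∃ e : ℝ, 0 < e ∧ e ≤ 1 ∧ e ≤ ε :=
    ⟨min ε 1, lt_min hε one_pos, min_le_right _ _, min_le_left _ _⟩
  obtain ⟨u0, hu04, hu0e, hu0c⟩ : ∃ u0 : ℝ, 4 ≤ u0 ∧ 14 / e ≤ u0 ∧ 196608 / (e * c) ≤ u0 :=
    ⟨max 4 (max (14 / e) (196608 / (e * c))), le_max_left _ _,
      (le_max_left _ _).trans (le_max_right _ _), (le_max_right _ _).trans (le_max_right _ _)⟩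
  refine ⟨max l1 (u0 ^ 12), fun l hl L hL1 hL2 J hJ => ?_⟩
  have hll1 : l1 ≤ l := (le_max_left _ _).trans hl
  have hlu : u0 ^ 12 ≤ l := (le_max_right _ _).trans hl
  have hl0 : 0 < l := lt_of_lt_of_le (by positivity) hlu
  obtain ⟨u, hu0', hul, hu3⟩ : ∃ u : ℝ, 0 < u ∧ u ^ 12 = l ∧ u ^ 3 = l ^ (1 / 4 : ℝ) := by
    refine ⟨l ^ (1 / 12 : ℝ), by positivity, ?_, ?_⟩
    · rw [← Real.rpow_natCast, ← Real.rpow_mul hl0.le]
      norm_num
    · rw [← Real.rpow_natCast, ← Real.rpow_mul hl0.le]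
      norm_num
  have hF := hl1 l hll1
  rw [← hu3] at hL1 hJ
  subst hul
  have huu : u0 ≤ u := by
    by_contra hcon
    rw [not_le] at hcon
    have := pow_lt_pow_left₀ hcon hu0'.le (n := 12) (by norm_num)
    linarith
  have hu4 : 4 ≤ u := hu04.trans huu
  obtain ⟨g3, g38, g812⟩ := pows hu4
  set F : ℝ := Real.exp (-(u ^ 12)) * GG t (u ^ 12) with hFdef
  set S : ℝ := Real.exp (-(u ^ 12)) *
    ∑ k ∈ Ico ⌊u ^ 12 - u ^ 8⌋₊ ⌈u ^ 12 + u ^ 8⌉₊, t k * (u ^ 12) ^ k / (k.factorial : ℝ) with hSdef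
  have hwin : F ≤ 12288 / u ^ 16 + S := window ht0 ht1 hu4
  have hF0 : 0 < F := lt_of_lt_of_le (by positivity) hF
  -- the tails
  have htail : 12288 / u ^ 16 ≤ e / 2 * F := by
    have h1 : 12288 / u ^ 16 ≤ e / 2 * (c / (8 * u ^ 12)) := by
      have h2 : 196608 ≤ u ^ 4 * (e * c) := by
        have h3 : 196608 / (e * c) ≤ u ^ 4 := by
          refine hu0c.trans (huu.trans ?_)
          calc u = u ^ 1 := (pow_one u).symm
            _ ≤ u ^ 4 := pow_le_pow_right₀ (by linarith) (by norm_num)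
        rwa [div_le_iff₀ (by positivity)] at h3
      have h4 : e / 2 * (c / (8 * u ^ 12)) = (u ^ 4 * (e * c)) / (16 * u ^ 16) := by
        field_simp
        ring
      rw [h4, div_le_div_iff₀ (by positivity) (by positivity)]
      have h5 : 0 < u ^ 16 := by positivity
      nlinarith [mul_le_mul_of_nonneg_right h2 h5.le]
    exact h1.trans (mul_le_mul_of_nonneg_left hF (by positivity))
  have hS : (1 - e / 2) * F ≤ S := by linarith
  -- the ratio
  have hrho : 1 - e / 2 ≤ (1 - 4 / u) * (1 - 3 / u) := by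
    have h1 : 14 / e ≤ u := hu0e.trans huu
    have h2 : 7 / u ≤ e / 2 := by
      rw [div_le_iff₀ he0] at h1
      rw [div_le_div_iff₀ hu0' (by norm_num)]
      linarith
    have h3 : (1 - 4 / u) * (1 - 3 / u) = 1 - 7 / u + 12 / u ^ 2 := by
      field_simp
      ring
    have h4 : 0 ≤ 12 / u ^ 2 := by positivity
    rw [h3]
    linarith
  have hS0 : 0 ≤ S := by
    rw [hSdef]
    apply mul_nonneg (Real.exp_pos _).le
    apply sum_nonneg
    intro k _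
    have := ht0 k
    positivity
  have hL0 : 0 ≤ L := by linarith
  -- the sum over the window
  have hmain : (1 - 4 / u) * (1 - 3 / u) * S ≤
      Real.exp (-L) * ∑ k ∈ range (⌊2 * L⌋₊ + 1), t (k + J) * L ^ k / (k.factorial : ℝ) := by
    set a0 : ℕ := ⌊u ^ 12 - u ^ 8⌋₊ with ha0
    set K : ℕ := ⌈u ^ 12 + u ^ 8⌉₊ with hK
    have ha0R : u ^ 12 - u ^ 8 < (a0 : ℝ) + 1 := Nat.lt_floor_add_one _
    have hKlt : (K : ℝ) < u ^ 12 + u ^ 8 + 1 := Nat.ceil_lt_add_one (by positivity)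
    have hJa : J ≤ a0 := by
      have : (J : ℝ) ≤ a0 := by linarith
      exact_mod_cast this
    have hJK : J ≤ K := by
      have h2 : u ^ 12 + u ^ 8 ≤ (K : ℝ) := Nat.le_ceil _
      have : (J : ℝ) ≤ K := by linarith
      exact_mod_cast this
    have h1 : ∑ k ∈ Ico (a0 - J) (K - J), t (k + J) * L ^ k / (k.factorial : ℝ) ≤
        ∑ k ∈ range (⌊2 * L⌋₊ + 1), t (k + J) * L ^ k / (k.factorial : ℝ) := by
      apply sum_le_sum_of_subset_of_nonneg
      · intro k hk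
        rw [mem_Ico] at hk
        rw [mem_range]
        have h2 : K ≤ ⌊2 * L⌋₊ + 1 := by
          have h3 : (K : ℝ) < ((⌊2 * L⌋₊ + 1 : ℕ) : ℝ) := by
            push_cast
            have h4 := Nat.lt_floor_add_one (2 * L)
            linarith
          have h5 : K < ⌊2 * L⌋₊ + 1 := by exact_mod_cast h3
          omega
        omega
      · intro k _ _
        have := ht0 (k + J)
        positivity
    have h2 : ∑ k ∈ Ico (a0 - J) (K - J), t (k + J) * L ^ k / (k.factorial : ℝ) =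
        ∑ k ∈ Ico a0 K, t k * L ^ (k - J) / ((k - J).factorial : ℝ) := by
      have h3 := sum_Ico_add' (fun k => t k * L ^ (k - J) / ((k - J).factorial : ℝ)) (a0 - J) (K - J) J
      rw [Nat.sub_add_cancel hJa, Nat.sub_add_cancel hJK] at h3
      rw [← h3]
      apply sum_congr rfl
      intro k _
      rw [Nat.add_sub_cancel]
    have h3 : (1 - 4 / u) * (1 - 3 / u) * S ≤
        Real.exp (-L) * ∑ k ∈ Ico a0 K, t k * L ^ (k - J) / ((k - J).factorial : ℝ) := by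
      rw [hSdef, mul_sum, mul_sum, mul_sum]
      apply sum_le_sum
      intro k hk
      rw [mem_Ico] at hk
      have hk1 : u ^ 12 - 2 * u ^ 8 ≤ (k : ℝ) := by
        have : (a0 : ℝ) ≤ k := by exact_mod_cast hk.1
        linarith
      have hk2 : (k : ℝ) ≤ u ^ 12 + u ^ 8 := by
        have h5 : (k : ℝ) + 1 ≤ K := by exact_mod_cast hk.2
        linarith
      have h4 := mul_le_mul_of_nonneg_left (term hu4 hL1 hL2 hJ hk1 hk2) (ht0 k)
      calc (1 - 4 / u) * (1 - 3 / u) * (Real.exp (-(u ^ 12)) * (t k * (u ^ 12) ^ k / (k.factorial : ℝ)))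
          = t k * ((1 - 4 / u) * (1 - 3 / u) * (Real.exp (-(u ^ 12)) *
            ((u ^ 12) ^ k / (k.factorial : ℝ)))) := by ring
        _ ≤ _ := h4
        _ = Real.exp (-L) * (t k * L ^ (k - J) / ((k - J).factorial : ℝ)) := by ring
    refine h3.trans ?_
    rw [← h2]
    exact mul_le_mul_of_nonneg_left h1 (Real.exp_pos _).le
  have h1 : (1 - e / 2) * S ≤ (1 - 4 / u) * (1 - 3 / u) * S := mul_le_mul_of_nonneg_right hrho hS0
  have h2 : (1 - e / 2) * ((1 - e / 2) * F) ≤ (1 - e / 2) * S :=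
    mul_le_mul_of_nonneg_left hS (by linarith)
  have h3 : (1 - ε) * F ≤ (1 - e / 2) * ((1 - e / 2) * F) := by
    have h4 : (1 - e / 2) * ((1 - e / 2) * F) = (1 - e + e ^ 2 / 4) * F := by ring
    rw [h4]
    apply mul_le_mul_of_nonneg_right _ hF0.le
    have : 0 ≤ e ^ 2 / 4 := by positivity
    linarith
  exact h3.trans (h2.trans (h1.trans hmain))

end Pool.Agent.Helper26.TE
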