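import Pool.Agent.Helper26.TE.Conv
import Pool.Agent.Helper26.TE.CFree
import Pool.Agent.Helper26.TE.Moment
import Pool.Agent.Helper26.TE.Elem
import Pool.Agent.Helper26.TE.PoisLow
import Pool.Agent.Helper26.TD.Split
import Pool.Agent.Helper26.TD.Asym

/-!
# TE-10 (MP_277c78_nt): the lower half of the asymptotic formula
-/

set_option autoImplicit false

namespace Pool.Agent.Helper26.TE

open Finset Filter Topology
open Pool.Agent.Helper16.UB (Admissible M W)
open Pool.Agent.Helper26.TD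

open Classical in
/-- the `P`-free numbers with few prime factors -/
theorem few_ge {N z y K J : ℕ} (hJ : 0 < J) (hzy : z ≤ y) (hyX : y ≤ N / y ^ K) :
    (∑ c ∈ CF (PP z y) (N / y ^ K), 1 / (c : ℝ)) *
        (1 - (W z + (W (N / y ^ K) - W y) + 1) / J) ≤
      ∑ c ∈ (CF (PP z y) N).filter
        (fun c => c * y ^ K ≤ N ∧ ArithmeticFunction.cardFactors c ≤ J), 1 / (c : ℝ) := by
  set X := N / y ^ K with hX
  set Q := W z + (W X - W y) + 1 with hQ
  have hJR : (0 : ℝ) < J := by exact_mod_cast hJ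
  have h1 : ∑ c ∈ (CF (PP z y) X).filter (fun c => ¬ ArithmeticFunction.cardFactors c ≤ J),
      1 / (c : ℝ) ≤ (∑ c ∈ CF (PP z y) X, 1 / (c : ℝ)) * (Q / J) := by
    have h2 : ∑ c ∈ (CF (PP z y) X).filter (fun c => ¬ ArithmeticFunction.cardFactors c ≤ J),
        1 / (c : ℝ) ≤ (1 / (J : ℝ)) *
        ∑ c ∈ CF (PP z y) X, (ArithmeticFunction.cardFactors c : ℝ) * (1 / (c : ℝ)) := by
      rw [mul_sum]
      refine le_trans (sum_le_sum fun c hc => ?_)
        (sum_le_sum_of_subset_of_nonneg (filter_subset _ _) fun c _ _ => by positivity)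
      rw [mem_filter, not_le] at hc
      have h3 : (J : ℝ) ≤ ArithmeticFunction.cardFactors c := by exact_mod_cast hc.2.le
      have h4 : 1 ≤ 1 / (J : ℝ) * ArithmeticFunction.cardFactors c := by
        rw [one_div, ← div_eq_inv_mul, le_div_iff₀ hJR]
        linarith
      have h5 : (0 : ℝ) ≤ 1 / (c : ℝ) := by positivity
      nlinarith
    refine h2.trans ?_
    have h3 := mul_le_mul_of_nonneg_left (om_moment hzy hyX)
      (show (0 : ℝ) ≤ 1 / (J : ℝ) by positivity)
    refine h3.trans (le_of_eq ?_)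
    rw [← hQ]
    ring
  have h2 : ∑ c ∈ (CF (PP z y) X).filter (fun c => ArithmeticFunction.cardFactors c ≤ J),
      1 / (c : ℝ) ≤ ∑ c ∈ (CF (PP z y) N).filter
        (fun c => c * y ^ K ≤ N ∧ ArithmeticFunction.cardFactors c ≤ J), 1 / (c : ℝ) := by
    refine sum_le_sum_of_subset_of_nonneg ?_ fun c _ _ => by positivity
    intro c hc
    rw [mem_filter] at hc ⊢
    obtain ⟨hc1, hc2⟩ := hc
    unfold CF at hc1 ⊢
    rw [mem_filter, mem_Icc] at hc1 ⊢
    refine ⟨⟨⟨hc1.1.1, hc1.1.2.trans (Nat.div_le_self _ _)⟩, hc1.2⟩, ?_, hc2⟩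
    exact (Nat.mul_le_mul_right _ hc1.1.2).trans (Nat.div_mul_le_self _ _)
  have h3 := sum_filter_add_sum_filter_not (CF (PP z y) X)
    (fun c => ArithmeticFunction.cardFactors c ≤ J) (fun c => 1 / (c : ℝ))
  have h4 : (∑ c ∈ CF (PP z y) X, 1 / (c : ℝ)) * (1 - Q / J) =
      (∑ c ∈ CF (PP z y) X, 1 / (c : ℝ)) - (∑ c ∈ CF (PP z y) X, 1 / (c : ℝ)) * (Q / J) := by
    ring
  rw [h4]
  linarith

theorem elem_sum {r z y K J : ℕ} (hz : 1 ≤ z) (hK : ⌊2 * LL (PP z y)⌋₊ ≤ K) :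
    (1 - 2 / (z : ℝ)) * ∑ k ∈ range (⌊2 * LL (PP z y)⌋₊ + 1),
        td r (k + J) * LL (PP z y) ^ k / (k.factorial : ℝ) ≤
      ∑ s ∈ (PP z y).powerset.filter (fun s => s.card ≤ K),
        td r (s.card + J) * ∏ p ∈ s, 1 / (p : ℝ) := by
  set P := PP z y with hP
  have h0 : 0 ≤ 2 * LL P := by
    have := LL_nonneg P
    linarith
  have hnn : ∀ s : Finset ℕ, 0 ≤ td r (s.card + J) * ∏ p ∈ s, 1 / (p : ℝ) := fun s =>
    mul_nonneg (td_nonneg _ _) (prod_nonneg fun p _ => by positivity)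
  rw [mul_sum]
  have h1 : ∀ k ∈ range (⌊2 * LL P⌋₊ + 1),
      (1 - 2 / (z : ℝ)) * (td r (k + J) * LL P ^ k / (k.factorial : ℝ)) ≤
      ∑ s ∈ P.powersetCard k, td r (s.card + J) * ∏ p ∈ s, 1 / (p : ℝ) := by
    intro k hk
    have hk2 : (k : ℝ) ≤ 2 * LL P := by
      have : k ≤ ⌊2 * LL P⌋₊ := by
        have := mem_range.1 hk
        omega
      exact (Nat.cast_le.2 this).trans (Nat.floor_le h0)
    have h2 := mul_le_mul_of_nonneg_left (elem_ge hz hk2) (td_nonneg r (k + J))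
    have h3 : ∑ s ∈ P.powersetCard k, td r (s.card + J) * ∏ p ∈ s, 1 / (p : ℝ) =
        td r (k + J) * ∑ s ∈ P.powersetCard k, ∏ p ∈ s, 1 / (p : ℝ) := by
      rw [mul_sum]
      refine sum_congr rfl fun s hs => ?_
      rw [(mem_powersetCard.1 hs).2]
    rw [h3]
    refine le_trans (le_of_eq ?_) h2
    ring
  refine (sum_le_sum h1).trans ?_
  rw [← sum_biUnion]
  · refine sum_le_sum_of_subset_of_nonneg ?_ fun s _ _ => hnn s
    intro s hs
    rw [mem_biUnion] at hs
    obtain ⟨k, hk, hs⟩ := hs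
    rw [mem_powersetCard] at hs
    rw [mem_filter, mem_powerset]
    refine ⟨hs.1, ?_⟩
    have := mem_range.1 hk
    omega
  · intro k _ k' _ hkk
    rw [Function.onFun, disjoint_left]
    intro s hs hs'
    rw [mem_powersetCard] at hs hs'
    exact hkk (hs.2.symm.trans hs'.2)

theorem exists_z' {η : ℝ} (hη : 0 < η) :
    ∃ z : ℕ, 2 ≤ z ∧ 1 - η ≤ Real.exp (-(1 / (z : ℝ))) * (1 - 2 / (z : ℝ)) := by
  have h1 : Tendsto (fun z : ℕ => 1 / (z : ℝ)) atTop (𝓝 0) := tendsto_one_div_atTop_nhds_zero_nat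
  have h2 : Tendsto (fun z : ℕ => Real.exp (-(1 / (z : ℝ)))) atTop (𝓝 1) := by
    have h := (Real.continuous_exp.tendsto (-0)).comp h1.neg
    simpa [Function.comp_def] using h
  have h3 : Tendsto (fun z : ℕ => 1 - 2 / (z : ℝ)) atTop (𝓝 1) := by
    have h := (h1.const_mul 2).const_sub 1
    simpa [div_eq_mul_inv] using h
  have h4 : Tendsto (fun z : ℕ => Real.exp (-(1 / (z : ℝ))) * (1 - 2 / (z : ℝ))) atTop (𝓝 1) := by
    simpa using h2.mul h3
  have h5 := h4.eventually_const_lt (show 1 - η < 1 by linarith)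
  obtain ⟨z, hz⟩ := (h5.and (eventually_ge_atTop 2)).exists
  exact ⟨z, hz.2, hz.1.le⟩

theorem low_asym {r : ℕ} (hr : 2 ≤ r) {ε : ℝ} (hε : 0 < ε) :
    ∀ᶠ N : ℕ in atTop, (1 - ε) * GG (td r) (Real.log (Real.log N)) ≤
      ∑ n ∈ Icc 1 N, td r (ArithmeticFunction.cardFactors n) * (1 / (n : ℝ)) := by
  obtain ⟨η, hη0, hη1, hηε⟩ : ∃ η : ℝ, 0 < η ∧ η ≤ 1 / 2 ∧ 4 * η ≤ ε := by
    refine ⟨min (ε / 4) (1 / 2), lt_min (by positivity) (by norm_num), min_le_right _ _, ?_⟩
    have := min_le_left (ε / 4) (1 / 2)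
    linarith
  obtain ⟨c, hc, k1, hk1⟩ := td_ge hr
  obtain ⟨C0, hC0⟩ := Pool.Agent.Helper16.UB.exists_W_le
  obtain ⟨z, hz2, hz⟩ := exists_z' hη0
  obtain ⟨l1, hl1⟩ := pois_low (td_nonneg r) (td_le_one r) (td_anti r) hc hk1 hη0
  have hlog2 : 0 < Real.log 2 := Real.log_pos one_lt_two
  set Wz := W z with hWz
  have hzR : (2 : ℝ) ≤ z := by exact_mod_cast hz2
  -- what is needed for large `x`
  have R1 : Tendsto (fun x : ℝ => x ^ (1 / 4 : ℝ)) atTop atTop :=
    tendsto_rpow_atTop (by norm_num)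
  have E3 : ∀ᶠ x : ℝ in atTop,
      3 * Real.log x + (Real.log 2 + 1 + Wz) ≤ x ^ (1 / 4 : ℝ) := by
    have h1 : ∀ᶠ x : ℝ in atTop, ‖Real.log x‖ ≤ 1 / 6 * ‖x ^ (1 / 4 : ℝ)‖ :=
      (isLittleO_log_rpow_atTop (show (0 : ℝ) < 1 / 4 by norm_num)).def (by norm_num)
    have h2 : ∀ᶠ x : ℝ in atTop, (Real.log 2 + 1 + Wz) * 2 ≤ x ^ (1 / 4 : ℝ) :=
      R1.eventually_ge_atTop _
    filter_upwards [h1, h2, eventually_ge_atTop 1] with x hx1 hx2 hx3
    rw [Real.norm_of_nonneg (Real.log_nonneg hx3),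
      Real.norm_of_nonneg (Real.rpow_nonneg (by linarith) _)] at hx1
    linarith
  -- `Q ≤ η J`
  have E6 : ∀ᶠ x : ℝ in atTop,
      3 * Real.log x + (Real.log 2 + 2 + Wz + C0) ≤ η * (x ^ (1 / 4 : ℝ) - 1) ∧
        2 ≤ x ^ (1 / 4 : ℝ) := by
    have h1 : ∀ᶠ x : ℝ in atTop, ‖Real.log x‖ ≤ η / 6 * ‖x ^ (1 / 4 : ℝ)‖ :=
      (isLittleO_log_rpow_atTop (show (0 : ℝ) < 1 / 4 by norm_num)).def (by positivity)
    have h2 : ∀ᶠ x : ℝ in atTop,
        (Real.log 2 + 2 + Wz + C0 + η) * (2 / η) ≤ x ^ (1 / 4 : ℝ) := R1.eventually_ge_atTop _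
    filter_upwards [h1, h2, eventually_ge_atTop 1, R1.eventually_ge_atTop 2] with x hx1 hx2 hx3 hx4
    rw [Real.norm_of_nonneg (Real.log_nonneg hx3),
      Real.norm_of_nonneg (Real.rpow_nonneg (by linarith) _)] at hx1
    refine ⟨?_, hx4⟩
    have h3 : Real.log 2 + 2 + Wz + C0 + η ≤ η / 2 * x ^ (1 / 4 : ℝ) := by
      have := mul_le_mul_of_nonneg_left hx2 (show 0 ≤ η / 2 by positivity)
      have e1 : η / 2 * ((Real.log 2 + 2 + Wz + C0 + η) * (2 / η)) =
          Real.log 2 + 2 + Wz + C0 + η := by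
        field_simp
      linarith
    linarith
  have E3' : ∀ᶠ x : ℝ in atTop, C0 ≤ 3 * Real.log x := by
    have := Real.tendsto_log_atTop.eventually_ge_atTop (C0 / 3)
    filter_upwards [this] with x hx
    linarith
  have E3'' : ∀ᶠ x : ℝ in atTop, 0 < x - x ^ (1 / 4 : ℝ) := by
    have h1 : ∀ᶠ x : ℝ in atTop, 2 ≤ x ^ (3 / 4 : ℝ) :=
      (tendsto_rpow_atTop (show (0 : ℝ) < 3 / 4 by norm_num)).eventually_ge_atTop _
    filter_upwards [h1, eventually_ge_atTop 1] with x hx1 hx2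
    have h2 : x ^ (1 / 4 : ℝ) * x ^ (3 / 4 : ℝ) = x := by
      rw [← Real.rpow_add (by linarith)]
      norm_num
    have h3 : 0 ≤ x ^ (1 / 4 : ℝ) := Real.rpow_nonneg (by linarith) _
    have h4 : x ^ (1 / 4 : ℝ) * 2 ≤ x := by
      have := mul_le_mul_of_nonneg_left hx1 h3
      linarith
    linarith
  have hB0 : 0 < 2 * Real.log 2 + Real.log (z + 1) + 1 := by
    have : 0 ≤ Real.log ((z : ℝ) + 1) := Real.log_nonneg (by linarith)
    linarith
  have E4 : ∀ᶠ x : ℝ in atTop,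
      (2 * Real.log 2 + Real.log (z + 1) + 1) * x ^ 3 ≤ Real.exp x := by
    have h := Real.tendsto_pow_mul_exp_neg_atTop_nhds_zero 3
    have h2 := h.eventually_lt_const
      (show (0 : ℝ) < 1 / (2 * Real.log 2 + Real.log (z + 1) + 1) by positivity)
    filter_upwards [h2] with x hx
    rw [Real.exp_neg, ← div_eq_mul_inv, div_lt_div_iff₀ (Real.exp_pos x) hB0] at hx
    linarith
  have E5 : ∀ᶠ x : ℝ in atTop, 3 ≤ x ∧ l1 ≤ x ∧ 4 / x ^ 2 ≤ η / 2 ∧
      Real.log 2 * Real.exp (-x) ≤ η / 2 := by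
    have h1 : Tendsto (fun x : ℝ => 4 / x ^ 2) atTop (𝓝 0) :=
      (tendsto_pow_atTop two_ne_zero).const_div_atTop 4
    have h2 : Tendsto (fun x : ℝ => Real.log 2 * Real.exp (-x)) atTop (𝓝 0) := by
      simpa using Real.tendsto_exp_neg_atTop_nhds_zero.const_mul (Real.log 2)
    filter_upwards [eventually_ge_atTop 3, eventually_ge_atTop l1,
      h1.eventually_le_const (show (0 : ℝ) < η / 2 by positivity),
      h2.eventually_le_const (show (0 : ℝ) < η / 2 by positivity)] with x a1 a2 a3 a4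
    exact ⟨a1, a2, a3, a4⟩
  have hll := Pool.Agent.Helper16.UB.tendsto_ll
  filter_upwards [hll.eventually E3, hll.eventually E6, hll.eventually E3',
    hll.eventually E3'', hll.eventually E4, hll.eventually E5, eventually_ge_atTop 3]
    with N f3 f6 f3' f3'' f4 f5 hN3
  have hxdef : Pool.Agent.Helper16.UB.ll N = Real.log (Real.log N) := rfl
  set x := Pool.Agent.Helper16.UB.ll N with hx
  rw [← hxdef]
  obtain ⟨hx3, hxl1, hx4, hx5⟩ := f5
  have hNR : (3 : ℝ) ≤ N := by exact_mod_cast hN3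
  have hNpos : (0 : ℝ) < N := by linarith
  set G := Real.log N with hG
  have hGp : 0 < G := Real.log_pos (by linarith)
  have hGx : Real.exp x = G := by rw [hxdef, Real.exp_log hGp]
  have hexpG : Real.exp G = N := by rw [hG, Real.exp_log hNpos]
  have hxp : 0 < x := by linarith
  -- the parameters
  set X := G / x ^ 3 with hX
  have hXB : 2 * Real.log 2 + Real.log (z + 1) + 1 ≤ X := by
    rw [hX, le_div_iff₀ (by positivity), ← hGx]
    exact f4
  have hlz : 0 ≤ Real.log ((z : ℝ) + 1) := Real.log_nonneg (by linarith)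
  have hX2 : 2 * Real.log 2 ≤ X := by linarith
  have hXp : 0 < X := by linarith
  set y := ⌊Real.exp X⌋₊ with hy
  set K := ⌊4 * x⌋₊ with hK
  set J := ⌊x ^ (1 / 4 : ℝ)⌋₊ with hJ
  have hexpX : 4 ≤ Real.exp X := by
    have h : Real.exp (2 * Real.log 2) ≤ Real.exp X := Real.exp_le_exp.2 hX2
    have h' : Real.exp (2 * Real.log 2) = 4 := by
      rw [two_mul, Real.exp_add, Real.exp_log two_pos]
      norm_num
    linarith
  have hexpz : (z : ℝ) + 1 ≤ Real.exp X := by
    have h : Real.exp (Real.log ((z : ℝ) + 1)) ≤ Real.exp X := Real.exp_le_exp.2 (by linarith)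
    rwa [Real.exp_log (by linarith)] at h
  have hyX : (y : ℝ) ≤ Real.exp X := Nat.floor_le (Real.exp_pos _).le
  have hyX' : Real.exp X < y + 1 := Nat.lt_floor_add_one _
  have hy3 : (3 : ℝ) < y := by linarith
  have hy2 : 2 ≤ y := by
    have : (2 : ℝ) < y := by linarith
    exact_mod_cast this.le
  have hzy : z ≤ y := by
    have : (z : ℝ) < y := by linarith
    exact_mod_cast this.le
  have hypos : (0 : ℝ) < y := by linarith
  have hKx : (K : ℝ) ≤ 4 * x := Nat.floor_le (by linarith)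
  have hKX : (K : ℝ) * X ≤ 4 * G / x ^ 2 := by
    have h : (K : ℝ) * X ≤ 4 * x * X := mul_le_mul_of_nonneg_right hKx hXp.le
    have e1 : 4 * x * X = 4 * G / x ^ 2 := by
      rw [hX]
      field_simp
    linarith
  have hKXG : ((K : ℝ) + 1) * X ≤ G := by
    have h : ((K : ℝ) + 1) * X ≤ 5 * x * X := mul_le_mul_of_nonneg_right (by linarith) hXp.le
    have e1 : 5 * x * X = 5 * G / x ^ 2 := by
      rw [hX]
      field_simp
    rw [e1] at h
    refine h.trans ?_
    rw [div_le_iff₀ (by positivity)]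
    have h4x : (5 : ℝ) ≤ x ^ 2 := by nlinarith
    have := mul_le_mul_of_nonneg_left h4x hGp.le
    linarith
  have hyK1 : y * y ^ K ≤ N := by
    have : ((y * y ^ K : ℕ) : ℝ) ≤ N := by
      rw [← hexpG, ← pow_succ', Nat.cast_pow]
      calc (y : ℝ) ^ (K + 1) ≤ Real.exp X ^ (K + 1) := pow_le_pow_left₀ hypos.le hyX _
        _ = Real.exp (((K + 1 : ℕ) : ℝ) * X) := by rw [← Real.exp_nat_mul]
        _ ≤ Real.exp G := by
            apply Real.exp_le_exp.2
            push_cast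
            exact hKXG
    exact_mod_cast this
  have hyKpos : 0 < y ^ K := pow_pos (by omega) K
  have hyX0 : y ≤ N / y ^ K := (Nat.le_div_iff_mul_le hyKpos).2 hyK1
  have hlogy : Real.log y ≤ X := by
    rw [Real.log_le_iff_le_exp hypos]
    exact hyX
  have hlogy' : X / 2 ≤ Real.log y := by
    have h : Real.exp X / 2 ≤ y := by linarith
    have h2 := Real.log_le_log (by positivity) h
    rw [Real.log_div (Real.exp_pos _).ne' two_ne_zero, Real.log_exp] at h2
    linarith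
  have hll2 : x - 3 * Real.log x - Real.log 2 ≤ Real.log (Real.log y) := by
    have h := Real.log_le_log (by positivity) hlogy'
    have e1 : Real.log (X / 2) = x - 3 * Real.log x - Real.log 2 := by
      rw [Real.log_div hXp.ne' two_ne_zero, hX, Real.log_div hGp.ne' (by positivity),
        Real.log_pow, hxdef]
      norm_num
    linarith
  have hll3 : Real.log (Real.log y) ≤ x - 3 * Real.log x := by
    have h := Real.log_le_log (by linarith) hlogy
    have e1 : Real.log X = x - 3 * Real.log x := by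
      rw [hX, Real.log_div hGp.ne' (by positivity), Real.log_pow, hxdef]
      norm_num
    linarith
  have hWy := Pool.Agent.Helper16.UB.W_ge y hy2
  have hL1 : x - x ^ (1 / 4 : ℝ) ≤ LL (PP z y) := by
    have h2 := W_le_LL z y
    rw [← hWz] at h2
    linarith
  have hL2 : LL (PP z y) ≤ x := by
    have h1 := LL_le_W z y
    have h3 := hC0 y hy2
    linarith
  -- the two factors
  have hJx : (J : ℝ) ≤ x ^ (1 / 4 : ℝ) := Nat.floor_le (Real.rpow_nonneg hxp.le _)
  have hJx' : x ^ (1 / 4 : ℝ) < J + 1 := Nat.lt_floor_add_one _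
  have hJ1 : (1 : ℝ) < J + 0 + 0 ∨ 1 ≤ (J : ℝ) := by right; linarith [f6.2]
  have hJR : (0 : ℝ) < J := by linarith [f6.2]
  have hJ0 : 0 < J := by exact_mod_cast hJR
  have hfew := few_ge (K := K) hJ0 hzy hyX0
  have hel := elem_sum (r := r) (z := z) (y := y) (K := K) (J := J) (by omega)
    (Nat.floor_le_floor (by linarith))
  have hconv := conv (r := r) (N := N) (z := z) (y := y) (K := K) (J := J)
  have hcf := cf_ge (z := z) (y := y) (X := N / y ^ K) (by omega)
  set L := LL (PP z y) with hL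
  have hpl := hl1 x hxl1 L hL1 hL2 J hJx
  set S := ∑ k ∈ range (⌊2 * L⌋₊ + 1), td r (k + J) * L ^ k / (k.factorial : ℝ) with hS
  set g := Real.exp (-x) * GG (td r) x with hg
  have hg0 : 0 ≤ g := mul_nonneg (Real.exp_pos _).le (GG_nonneg (td_nonneg r) hxp.le)
  have hgG : g * G = GG (td r) x := by
    rw [hg, ← hGx, mul_comm (Real.exp (-x)), mul_assoc, ← Real.exp_add]
    simp
  -- `Q / J ≤ η`
  have hQ : (W z + (W (N / y ^ K) - W y) + 1) / J ≤ η := by
    rw [div_le_iff₀ hJR]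
    have h1 : W (N / y ^ K) ≤ W N := W_mono' (Nat.div_le_self _ _)
    have h2 := hC0 N (by omega)
    rw [← hG, ← hxdef] at h2
    have h3 : η * (x ^ (1 / 4 : ℝ) - 1) ≤ η * J := mul_le_mul_of_nonneg_left (by linarith) hη0.le
    linarith [f6.1]
  -- `log (N / y ^ K)`
  have hX0 : (1 - η) * G ≤ Real.log ((N / y ^ K : ℕ) : ℝ) := by
    have h1 : (N : ℝ) / (y : ℝ) ^ K / 2 ≤ ((N / y ^ K : ℕ) : ℝ) := by
      have h2 : (2 : ℝ) ≤ ((N / y ^ K : ℕ) : ℝ) := by
        have : 2 ≤ N / y ^ K := hy2.trans hyX0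
        exact_mod_cast this
      have h3 : (N : ℝ) / (y : ℝ) ^ K < ((N / y ^ K : ℕ) : ℝ) + 1 := by
        rw [div_lt_iff₀ (by positivity)]
        have := Nat.lt_div_mul_add (a := N) hyKpos
        have h4 : N < (N / y ^ K + 1) * y ^ K := by
          calc N < N / y ^ K * y ^ K + y ^ K := this
            _ = (N / y ^ K + 1) * y ^ K := by ring
        exact_mod_cast h4
      linarith
    have h2 := Real.log_le_log (by positivity) h1
    rw [Real.log_div (by positivity) two_ne_zero, Real.log_div hNpos.ne' (by positivity),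
      Real.log_pow, ← hG] at h2
    have h3 : (K : ℝ) * Real.log y ≤ 4 * G / x ^ 2 :=
      (mul_le_mul_of_nonneg_left hlogy (Nat.cast_nonneg _)).trans hKX
    have h4 : 4 * G / x ^ 2 ≤ η / 2 * G := by
      have : 4 * G / x ^ 2 = 4 / x ^ 2 * G := by ring
      rw [this]
      exact mul_le_mul_of_nonneg_right hx4 hGp.le
    have h5 : Real.log 2 ≤ η / 2 * G := by
      have h6 := mul_le_mul_of_nonneg_right hx5 hGp.le
      have h7 : Real.log 2 * Real.exp (-x) * G = Real.log 2 := by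
        rw [← hGx, mul_assoc, ← Real.exp_add]
        simp
      linarith
    linarith
  -- assembly
  have hez : 0 < Real.exp (-(1 / (z : ℝ))) := Real.exp_pos _
  have hz' : 0 ≤ 1 - 2 / (z : ℝ) := by
    have : 2 / (z : ℝ) ≤ 1 := by
      rw [div_le_one (by linarith)]
      exact hzR
    linarith
  have hη' : 0 ≤ 1 - η := by linarith
  have hS0 : 0 ≤ S := sum_nonneg fun k _ =>
    div_nonneg (mul_nonneg (td_nonneg _ _) (pow_nonneg (LL_nonneg _) _)) (by positivity)
  have hEL : Real.exp (-L - 1 / (z : ℝ)) = Real.exp (-L) * Real.exp (-(1 / (z : ℝ))) := by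
    rw [← Real.exp_add]
    ring_nf
  have hA : (1 - η) * G * (Real.exp (-L) * Real.exp (-(1 / (z : ℝ)))) ≤
      ∑ c ∈ CF (PP z y) (N / y ^ K), 1 / (c : ℝ) := by
    rw [hEL] at hcf
    exact (mul_le_mul_of_nonneg_right hX0 (by positivity)).trans hcf
  have hA0 : 0 ≤ ∑ c ∈ CF (PP z y) (N / y ^ K), 1 / (c : ℝ) :=
    sum_nonneg fun c _ => by positivity
  have hB : (1 - η) * G * (Real.exp (-L) * Real.exp (-(1 / (z : ℝ)))) * (1 - η) ≤
      (∑ c ∈ CF (PP z y) (N / y ^ K), 1 / (c : ℝ)) *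
        (1 - (W z + (W (N / y ^ K) - W y) + 1) / J) :=
    mul_le_mul hA (by linarith) hη' hA0
  have hB' := hB.trans hfew
  have hB0 : 0 ≤ (1 - η) * G * (Real.exp (-L) * Real.exp (-(1 / (z : ℝ)))) * (1 - η) := by
    positivity
  have hC := mul_le_mul hB' hel (mul_nonneg hz' hS0) (hB0.trans hB')
  have hD := hC.trans hconv
  refine le_trans ?_ hD
  have hF : (1 - η) * g ≤ Real.exp (-L) * S := hpl
  calc (1 - ε) * GG (td r) x ≤ (1 - η) ^ 4 * GG (td r) x := by
        apply mul_le_mul_of_nonneg_right _ (GG_nonneg (td_nonneg r) hxp.le)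
        have := one_add_mul_le_pow (show (-2 : ℝ) ≤ -η by linarith) 4
        have e1 : (1 + -η : ℝ) = 1 - η := by ring
        rw [e1] at this
        push_cast at this
        linarith
    _ = (1 - η) ^ 2 * G * (1 - η) * ((1 - η) * g) := by rw [← hgG]; ring
    _ ≤ (1 - η) ^ 2 * G * (Real.exp (-(1 / (z : ℝ))) * (1 - 2 / (z : ℝ))) *
          (Real.exp (-L) * S) := by
        apply mul_le_mul _ hF (mul_nonneg hη' hg0) (by positivity)
        exact mul_le_mul_of_nonneg_left hz (by positivity)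
    _ = (1 - η) * G * (Real.exp (-L) * Real.exp (-(1 / (z : ℝ)))) * (1 - η) *
          ((1 - 2 / (z : ℝ)) * S) := by ring

end Pool.Agent.Helper26.TE
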