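import Pool.Agent.Helper26.TE.UpA
import Pool.Agent.Helper26.TE.LowA
import Pool.Agent.Helper26.TD.Final

/-!
# TE-11 (MP_277c78_nt): assembly
-/

set_option autoImplicit false

namespace Pool.Agent.Helper26.TE

open Finset Filter Topology
open Pool.Agent.Helper16.UB (Admissible M W)
open Pool.Agent.Helper26.TD

/-- squeeze for a ratio -/
lemma ratio_one {a b : ℕ → ℝ} (hb : ∀ᶠ N in atTop, 0 < b N)
    (h1 : ∀ ε : ℝ, 0 < ε → ∀ᶠ N in atTop, a N ≤ (1 + ε) * b N)
    (h2 : ∀ ε : ℝ, 0 < ε → ∀ᶠ N in atTop, (1 - ε) * b N ≤ a N) :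
    Tendsto (fun N => a N / b N) atTop (𝓝 1) := by
  rw [Metric.tendsto_atTop]
  intro ε hε
  obtain ⟨N0, h⟩ := eventually_atTop.1 ((hb.and (h1 (ε / 2) (by positivity))).and
    (h2 (ε / 2) (by positivity)))
  refine ⟨N0, fun N hN => ?_⟩
  obtain ⟨⟨h3, h4⟩, h5⟩ := h N hN
  rw [Real.dist_eq, abs_lt]
  have h6 : a N / b N ≤ 1 + ε / 2 := by rwa [div_le_iff₀ h3]
  have h7 : 1 - ε / 2 ≤ a N / b N := by rwa [le_div_iff₀ h3]
  constructor <;> linarith

lemma GG_pos {r : ℕ} (hr : 2 ≤ r) :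
    ∀ᶠ N : ℕ in atTop, 0 < GG (td r) (Real.log (Real.log N)) := by
  obtain ⟨c, hc, k0, htc⟩ := td_ge hr
  obtain ⟨l0, h⟩ := GG_low (td_nonneg r) (td_le_one r) (td_anti r) hc htc
  have hll := Helper16.UB.tendsto_ll
  filter_upwards [hll.eventually_ge_atTop l0, hll.eventually_gt_atTop (0 : ℝ)] with N h1 h2
  have h3 := h _ h1
  have h2' : 0 < Real.log (Real.log N) := h2
  have h4 : 0 < Real.exp (-(Helper16.UB.ll N)) * GG (td r) (Helper16.UB.ll N) :=
    lt_of_lt_of_le (div_pos hc (by positivity)) h3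
  exact (pos_iff_pos_of_mul_pos h4).1 (Real.exp_pos _)

theorem low_asym' {r : ℕ} (hr : 2 ≤ r) {ε : ℝ} (hε : 0 < ε) :
    ∀ᶠ N : ℕ in atTop, (1 - ε) * GG (td r) (Real.log (Real.log N)) ≤ M r N := by
  filter_upwards [low_asym hr hε] with N h
  exact h.trans (lower_exact (by omega) N)

theorem asym {r : ℕ} (hr : 2 ≤ r) :
    Tendsto (fun N : ℕ => M r N / GG (td r) (Real.log (Real.log N))) atTop (𝓝 1) :=
  ratio_one (GG_pos hr) (fun _ h => up_asym hr h) (fun _ h => low_asym' hr h)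

theorem asym_sum {r : ℕ} (hr : 2 ≤ r) :
    Tendsto (fun N : ℕ => M r N /
      ∑ n ∈ Icc 1 N, td r (ArithmeticFunction.cardFactors n) * (1 / (n : ℝ))) atTop (𝓝 1) := by
  have h1 : Tendsto (fun N : ℕ =>
      (∑ n ∈ Icc 1 N, td r (ArithmeticFunction.cardFactors n) * (1 / (n : ℝ))) /
        GG (td r) (Real.log (Real.log N))) atTop (𝓝 1) := by
    refine ratio_one (GG_pos hr) (fun ε h => ?_) (fun _ h => low_asym hr h)
    filter_upwards [up_asym hr h] with N h2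
    exact (lower_exact (by omega) N).trans h2
  have h2 := (asym hr).div h1 one_ne_zero
  rw [div_one] at h2
  refine h2.congr' ?_
  filter_upwards [GG_pos hr] with N hN
  rw [Pi.div_apply, div_div_div_cancel_right₀ hN.ne']

end Pool.Agent.Helper26.TE
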