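import Pool.Agent.Helper26.TE.Basic
import Pool.Agent.Helper26.TD.Tails

/-!
# TE-2 (MP_277c78_nt): the Poisson average at `L ∈ [l - l ^ (1/4), l]` is at most `(1 + ε)` times the one at `l`

With `u = l ^ (1/8)`, `δ = u ^ (-3)`: for `k ≥ ⌊(1 - δ) L⌋`,
`exp (-L) L ^ k / k! ≤ exp ((l - L) (1 - k / l)) exp (-l) l ^ k / k!` and `(l - L) (1 - k / l) ≤ 3 / u`; the
`k < ⌊(1 - δ) L⌋` carry at most `exp (- δ ^ 2 L / 2)` (`low_tail`, `t ≤ 1`), negligible against `GG_low`.
-/

set_option autoImplicit false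

namespace Pool.Agent.Helper26.TE

open Finset Filter Topology
open Pool.Agent.Helper16.UB (Admissible M W)
open Pool.Agent.Helper26.TD

private theorem pow_le_aux {l L : ℝ} (hl : 0 < l) (hL : 0 ≤ L) (k : ℕ) :
    Real.exp (-L) * L ^ k ≤ Real.exp ((l - L) * (1 - k / l)) * (Real.exp (-l) * l ^ k) := by
  have h1 : L / l ≤ Real.exp (-((l - L) / l)) := by
    have h := Real.add_one_le_exp (-((l - L) / l))
    have e : -((l - L) / l) + 1 = L / l := by
      field_simp
      ring
    linarith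
  have h2 : L ^ k ≤ l ^ k * Real.exp (-((l - L) / l) * k) := by
    have h3 : L ^ k = l ^ k * (L / l) ^ k := by
      rw [← mul_pow]
      congr 1
      field_simp
    have h4 : (L / l) ^ k ≤ Real.exp (-((l - L) / l)) ^ k :=
      pow_le_pow_left₀ (div_nonneg hL hl.le) h1 k
    have h5 : Real.exp (-((l - L) / l)) ^ k = Real.exp (-((l - L) / l) * k) := by
      rw [← Real.exp_nat_mul, mul_comm]
    rw [h3, ← h5]
    exact mul_le_mul_of_nonneg_left h4 (pow_nonneg hl.le k)
  calc Real.exp (-L) * L ^ k ≤ Real.exp (-L) * (l ^ k * Real.exp (-((l - L) / l) * k)) :=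
        mul_le_mul_of_nonneg_left h2 (Real.exp_pos _).le
    _ = (Real.exp (-L) * Real.exp (-((l - L) / l) * k)) * l ^ k := by ring
    _ = Real.exp ((l - L) * (1 - k / l)) * (Real.exp (-l) * l ^ k) := by
        rw [← Real.exp_add, ← mul_assoc, ← Real.exp_add]
        congr 2
        field_simp
        ring

theorem pois_up {t : ℕ → ℝ} (ht0 : ∀ k, 0 ≤ t k) (ht1 : ∀ k, t k ≤ 1) (hta : Antitone t) {c : ℝ}
    (hc : 0 < c) {k0 : ℕ} (htc : ∀ k, k0 ≤ k → c / (k : ℝ) ≤ t k) {ε : ℝ} (hε : 0 < ε) :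
    ∃ l0 : ℝ, ∀ l : ℝ, l0 ≤ l → ∀ L : ℝ, l - l ^ (1 / 4 : ℝ) ≤ L → L ≤ l →
      Real.exp (-L) * GG t L ≤ (1 + ε) * (Real.exp (-l) * GG t l) := by
  obtain ⟨l1, hl1⟩ := GG_low ht0 ht1 hta hc htc
  set η := Real.log (1 + ε / 2) with hη
  have hηp : 0 < η := Real.log_pos (by linarith)
  have hexpη : Real.exp η = 1 + ε / 2 := by rw [hη, Real.exp_log (by linarith)]
  -- what is needed for large `u`
  have F1 : ∀ᶠ u : ℝ in atTop, 3 / η ≤ u := eventually_ge_atTop _
  have F2 : ∀ᶠ u : ℝ in atTop, (u ^ 2 / 4) ^ 4 * Real.exp (-(u ^ 2 / 4)) < ε / 2 * (c / 8) / 256 := by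
    have h1 := Real.tendsto_pow_mul_exp_neg_atTop_nhds_zero 4
    have h2 : Tendsto (fun u : ℝ => u ^ 2 / 4) atTop atTop :=
      (tendsto_pow_atTop two_ne_zero).atTop_div_const (by norm_num)
    exact (h1.comp h2).eventually_lt_const (by positivity)
  have F3 : ∀ᶠ u : ℝ in atTop, (2 : ℝ) ≤ u := eventually_ge_atTop _
  obtain ⟨u0, hu0⟩ := eventually_atTop.1 (F1.and (F2.and F3))
  refine ⟨max 1 (max l1 (max u0 1 ^ 8)), fun l hl L hL1 hL2 => ?_⟩
  have hl_1 : 1 ≤ l := (le_max_left _ _).trans hl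
  have hl_l1 : l1 ≤ l := ((le_max_left _ _).trans (le_max_right _ _)).trans hl
  have hl_u : max u0 1 ^ 8 ≤ l := ((le_max_right _ _).trans (le_max_right _ _)).trans hl
  have hlp : 0 < l := by linarith
  set u := l ^ (1 / 8 : ℝ) with hu
  have hup : 0 < u := Real.rpow_pos_of_pos hlp _
  have hu8 : u ^ 8 = l := by
    rw [hu, ← Real.rpow_natCast, ← Real.rpow_mul hlp.le]
    norm_num
  have hu2 : l ^ (1 / 4 : ℝ) = u ^ 2 := by
    rw [hu, ← Real.rpow_natCast, ← Real.rpow_mul hlp.le]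
    norm_num
  have huu : u0 ≤ u := by
    refine (le_max_left u0 1).trans ?_
    rw [← hu8] at hl_u
    exact le_of_pow_le_pow_left₀ (by norm_num) hup.le hl_u
  obtain ⟨f1, f2, f3⟩ := hu0 u huu
  rw [hu2] at hL1
  have hu1 : 1 ≤ u := by linarith
  -- `l = u ^ 8` dominates `u ^ 2`
  have hu28 : u ^ 2 ≤ u ^ 8 / 2 := by
    have h6 : (64 : ℝ) ≤ u ^ 6 := by
      calc (64 : ℝ) = 2 ^ 6 := by norm_num
        _ ≤ u ^ 6 := pow_le_pow_left₀ (by norm_num) f3 6
    have : u ^ 8 = u ^ 2 * u ^ 6 := by ring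
    rw [this]
    have hu2p : 0 < u ^ 2 := by positivity
    nlinarith
  have hLp : 0 < L := by
    have : 0 < u ^ 8 := by positivity
    linarith [hu8]
  have hLge : u ^ 8 / 2 ≤ L := by linarith [hu8]
  set δ := 1 / u ^ 3 with hδ
  have hδp : 0 < δ := by positivity
  have hδ1 : δ ≤ 1 := by
    rw [hδ]
    apply div_le_one_of_le₀ _ (by positivity)
    exact one_le_pow₀ hu1
  set m0 := ⌊(1 - δ) * L⌋₊ with hm0
  have hm0le : (m0 : ℝ) ≤ (1 - δ) * L := Nat.floor_le (mul_nonneg (by linarith) hLp.le)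
  have hm0ge : (1 - δ) * L < m0 + 1 := Nat.lt_floor_add_one _
  have hlow := low_tail (L := L) (δ := δ) hLp.le hδp.le hm0le
  have hδL : u ^ 2 / 4 ≤ δ ^ 2 * L / 2 := by
    have h1 : δ ^ 2 * (u ^ 8 / 2) ≤ δ ^ 2 * L := mul_le_mul_of_nonneg_left hLge (by positivity)
    have h2 : δ ^ 2 * (u ^ 8 / 2) = u ^ 2 / 2 := by
      rw [hδ]
      field_simp
    linarith
  have hlow2 : ∑ k ∈ range m0, L ^ k / (k.factorial : ℝ) ≤ Real.exp L * Real.exp (-(u ^ 2 / 4)) := by
    refine hlow.trans (mul_le_mul_of_nonneg_left (Real.exp_le_exp.2 ?_) (Real.exp_pos _).le)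
    linarith
  -- the small term
  have hG := hl1 l hl_l1
  have hsmall : Real.exp (-(u ^ 2 / 4)) ≤ ε / 2 * (Real.exp (-l) * GG t l) := by
    have h1 : u ^ 8 * Real.exp (-(u ^ 2 / 4)) ≤ ε / 2 * (c / 8) := by
      have e1 : (u ^ 2 / 4) ^ 4 * Real.exp (-(u ^ 2 / 4)) =
          u ^ 8 * Real.exp (-(u ^ 2 / 4)) / 256 := by ring
      rw [e1] at f2
      have := (div_lt_div_iff_of_pos_right (show (0 : ℝ) < 256 by norm_num)).1 f2
      exact this.le
    have h2 : Real.exp (-(u ^ 2 / 4)) ≤ ε / 2 * (c / (8 * l)) := by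
      rw [← hu8]
      have h3 : ε / 2 * (c / (8 * u ^ 8)) = ε / 2 * (c / 8) / u ^ 8 := by
        field_simp
      rw [h3, le_div_iff₀ (by positivity)]
      linarith
    exact h2.trans (mul_le_mul_of_nonneg_left hG (by linarith))
  -- the main terms
  have hmain : ∀ k : ℕ, m0 ≤ k →
      Real.exp (-L) * L ^ k ≤ (1 + ε / 2) * (Real.exp (-l) * l ^ k) := by
    intro k hk
    refine (pow_le_aux hlp hLp.le k).trans ?_
    rw [← hexpη]
    apply mul_le_mul_of_nonneg_right _ (by positivity)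
    apply Real.exp_le_exp.2
    have ha0 : 0 ≤ l - L := by linarith
    have ha1 : l - L ≤ u ^ 2 := by linarith
    have hk1 : (1 - δ) * L - 1 ≤ k := by
      have : (m0 : ℝ) ≤ k := by exact_mod_cast hk
      linarith
    have hkl : 1 - (k : ℝ) / l ≤ (u ^ 2 + 1) / l + δ := by
      have h1 : 1 - (k : ℝ) / l = (l - k) / l := by field_simp
      have h2 : (u ^ 2 + 1) / l + δ = (u ^ 2 + 1 + δ * l) / l := by field_simp
      rw [h1, h2]
      apply div_le_div_of_nonneg_right _ hlp.le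
      have h3 : δ * L ≤ δ * l := mul_le_mul_of_nonneg_left hL2 hδp.le
      linarith
    have h4 : (l - L) * (1 - (k : ℝ) / l) ≤ u ^ 2 * ((u ^ 2 + 1) / l + δ) := by
      have h5 : 0 ≤ (u ^ 2 + 1) / l + δ := by positivity
      calc (l - L) * (1 - (k : ℝ) / l) ≤ (l - L) * ((u ^ 2 + 1) / l + δ) :=
            mul_le_mul_of_nonneg_left hkl ha0
        _ ≤ u ^ 2 * ((u ^ 2 + 1) / l + δ) := mul_le_mul_of_nonneg_right ha1 h5
    refine h4.trans ?_
    have h6 : u ^ 2 * ((u ^ 2 + 1) / l + δ) = (u ^ 2 + 1) / u ^ 6 + 1 / u := by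
      rw [← hu8, hδ]
      field_simp
    rw [h6]
    have h7 : (u ^ 2 + 1) / u ^ 6 ≤ 2 / u := by
      rw [div_le_div_iff₀ (by positivity) hup]
      have h8 : (u ^ 2 + 1) * u ≤ 2 * u ^ 3 := by nlinarith [sq_nonneg u]
      have h9 : u ^ 3 ≤ u ^ 6 := pow_le_pow_right₀ hu1 (by norm_num)
      linarith
    have h10 : 3 / u ≤ η := by
      rw [div_le_iff₀ hup]
      rw [div_le_iff₀ hηp] at f1
      linarith
    have h11 : 2 / u + 1 / u = 3 / u := by ring
    linarith
  -- assembly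
  have hGl : 0 ≤ GG t l := GG_nonneg ht0 hlp.le
  have hsum : ∀ n : ℕ, ∑ k ∈ range n, t k * L ^ k / (k.factorial : ℝ) ≤
      Real.exp L * ((1 + ε) * (Real.exp (-l) * GG t l)) := by
    intro n
    have h1 : ∀ k ∈ range n, t k * L ^ k / (k.factorial : ℝ) ≤
        (if k < m0 then L ^ k / (k.factorial : ℝ) else 0) +
          Real.exp L * ((1 + ε / 2) * (Real.exp (-l) * (t k * l ^ k / (k.factorial : ℝ)))) := by
      intro k _
      have hf : (0 : ℝ) < k.factorial := by exact_mod_cast k.factorial_pos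
      split_ifs with hk
      · have h2 : t k * L ^ k / (k.factorial : ℝ) ≤ L ^ k / (k.factorial : ℝ) := by
          apply div_le_div_of_nonneg_right _ hf.le
          have := mul_le_mul_of_nonneg_right (ht1 k) (pow_nonneg hLp.le k)
          linarith
        have h3 : 0 ≤ Real.exp L * ((1 + ε / 2) * (Real.exp (-l) * (t k * l ^ k / (k.factorial : ℝ)))) := by
          have := ht0 k
          positivity
        linarith
      · have h2 := hmain k (not_lt.1 hk)
        have h3 : L ^ k ≤ Real.exp L * ((1 + ε / 2) * (Real.exp (-l) * l ^ k)) := by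
          have h4 := mul_le_mul_of_nonneg_left h2 (Real.exp_pos L).le
          have h5 : Real.exp L * (Real.exp (-L) * L ^ k) = L ^ k := by
            rw [← mul_assoc, ← Real.exp_add]
            simp
          rwa [h5] at h4
        have h4 : t k / (k.factorial : ℝ) * L ^ k ≤
            t k / (k.factorial : ℝ) * (Real.exp L * ((1 + ε / 2) * (Real.exp (-l) * l ^ k))) :=
          mul_le_mul_of_nonneg_left h3 (div_nonneg (ht0 k) hf.le)
        calc t k * L ^ k / (k.factorial : ℝ) = t k / (k.factorial : ℝ) * L ^ k := by ring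
          _ ≤ _ := h4
          _ = 0 + Real.exp L * ((1 + ε / 2) * (Real.exp (-l) * (t k * l ^ k / (k.factorial : ℝ)))) := by
              ring
    refine (sum_le_sum h1).trans ?_
    rw [sum_add_distrib]
    have h2 : ∑ k ∈ range n, (if k < m0 then L ^ k / (k.factorial : ℝ) else 0) ≤
        ∑ k ∈ range m0, L ^ k / (k.factorial : ℝ) := by
      rw [← sum_filter]
      apply sum_le_sum_of_subset_of_nonneg
      · intro k hk
        exact mem_range.2 (mem_filter.1 hk).2
      · intro k _ _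
        positivity
    have h3 : ∑ k ∈ range n,
        Real.exp L * ((1 + ε / 2) * (Real.exp (-l) * (t k * l ^ k / (k.factorial : ℝ)))) ≤
        Real.exp L * ((1 + ε / 2) * (Real.exp (-l) * GG t l)) := by
      rw [← mul_sum, ← mul_sum, ← mul_sum]
      have := sum_le_GG ht0 ht1 hlp.le (range n)
      have he := Real.exp_pos L
      have he' := Real.exp_pos (-l)
      apply mul_le_mul_of_nonneg_left _ he.le
      apply mul_le_mul_of_nonneg_left _ (by linarith)
      exact mul_le_mul_of_nonneg_left this he'.le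
    have h4 : Real.exp L * Real.exp (-(u ^ 2 / 4)) ≤ Real.exp L * (ε / 2 * (Real.exp (-l) * GG t l)) :=
      mul_le_mul_of_nonneg_left hsmall (Real.exp_pos _).le
    have h5 : Real.exp L * ((1 + ε) * (Real.exp (-l) * GG t l)) =
        Real.exp L * (ε / 2 * (Real.exp (-l) * GG t l)) +
          Real.exp L * ((1 + ε / 2) * (Real.exp (-l) * GG t l)) := by ring
    linarith
  have hfin : GG t L ≤ Real.exp L * ((1 + ε) * (Real.exp (-l) * GG t l)) := by
    unfold GG at *
    exact Real.tsum_le_of_sum_range_le (fun k => by have := ht0 k; positivity) hsum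
  have h6 := mul_le_mul_of_nonneg_left hfin (Real.exp_pos (-L)).le
  have h7 : Real.exp (-L) * (Real.exp L * ((1 + ε) * (Real.exp (-l) * GG t l))) =
      (1 + ε) * (Real.exp (-l) * GG t l) := by
    rw [← mul_assoc, ← Real.exp_add]
    simp
  rwa [h7] at h6

end Pool.Agent.Helper26.TE
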