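import Pool.Agent.Helper26.TE.Final
import Pool.Agent.Helper5.TP.Ratio
import Pool.Agent.Helper5.TP.TdLe

/-!
# TE-12 (MP_277c78_nt): `M_r` is regularly varying as a function of `log N`

`asym` (TE/Final.lean) and the slow variation of `exp (-x) * GG (td r) x` (`psi_ratio` of Helper5/TP),
`log log ⌊N ^ a⌋ = log log N + log a + o(1)`.
-/

set_option autoImplicit false

namespace Pool.Agent.Helper26.TE

open Finset Filter Topology
open Pool.Agent.Helper16.UB (Admissible M W)
open Pool.Agent.Helper26.TD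

/-- `log ⌊N ^ a⌋ / log N → a` -/
lemma log_floor {a : ℝ} (ha : 0 < a) :
    Tendsto (fun N : ℕ => Real.log (⌊(N : ℝ) ^ a⌋₊ : ℝ) / Real.log N) atTop (𝓝 a) := by
  have hlog : Tendsto (fun N : ℕ => Real.log (N : ℝ)) atTop atTop :=
    Real.tendsto_log_atTop.comp tendsto_natCast_atTop_atTop
  have hpow : Tendsto (fun N : ℕ => (N : ℝ) ^ a) atTop atTop :=
    (tendsto_rpow_atTop ha).comp tendsto_natCast_atTop_atTop
  have h1 : Tendsto (fun N : ℕ => a - Real.log 2 / Real.log (N : ℝ)) atTop (𝓝 a) := by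
    have := (tendsto_const_nhds (x := Real.log 2)).div_atTop hlog
    simpa using this.const_sub a
  refine tendsto_of_tendsto_of_tendsto_of_le_of_le' h1 tendsto_const_nhds ?_ ?_
  · filter_upwards [hpow.eventually_ge_atTop 2, hlog.eventually_gt_atTop 0,
      eventually_ge_atTop 1] with N h2 h3 h4
    have hN : (0 : ℝ) < N := by exact_mod_cast h4
    have h5 : (N : ℝ) ^ a / 2 ≤ (⌊(N : ℝ) ^ a⌋₊ : ℝ) := by
      have := Nat.lt_floor_add_one ((N : ℝ) ^ a)
      linarith
    have h6 := Real.log_le_log (by positivity) h5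
    rw [Real.log_div (by positivity) two_ne_zero, Real.log_rpow hN] at h6
    rw [le_div_iff₀ h3, sub_mul, div_mul_cancel₀ _ h3.ne']
    exact h6
  · filter_upwards [hpow.eventually_ge_atTop 2, hlog.eventually_gt_atTop 0,
      eventually_ge_atTop 1] with N h2 h3 h4
    have hN : (0 : ℝ) < N := by exact_mod_cast h4
    have h5 : (⌊(N : ℝ) ^ a⌋₊ : ℝ) ≤ (N : ℝ) ^ a := Nat.floor_le (by positivity)
    have h7 : (0 : ℝ) < (⌊(N : ℝ) ^ a⌋₊ : ℝ) := by
      have := Nat.lt_floor_add_one ((N : ℝ) ^ a)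
      linarith
    have h6 := Real.log_le_log h7 h5
    rw [Real.log_rpow hN] at h6
    rw [div_le_iff₀ h3]
    exact h6

theorem reg_var {r : ℕ} (hr : 2 ≤ r) {a : ℝ} (ha : 0 < a) :
    Tendsto (fun N : ℕ => M r ⌊(N : ℝ) ^ a⌋₊ / M r N) atTop (𝓝 a) := by
  obtain ⟨c, hc, k0, htc⟩ := td_ge hr
  obtain ⟨l1, hl1⟩ := GG_low (td_nonneg r) (td_le_one r) (td_anti r) hc htc
  have hlog : Tendsto (fun N : ℕ => Real.log (N : ℝ)) atTop atTop :=
    Real.tendsto_log_atTop.comp tendsto_natCast_atTop_atTop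
  have hll : Tendsto (fun N : ℕ => Real.log (Real.log (N : ℝ))) atTop atTop :=
    Real.tendsto_log_atTop.comp hlog
  have hfl : Tendsto (fun N : ℕ => ⌊(N : ℝ) ^ a⌋₊) atTop atTop :=
    tendsto_nat_floor_atTop.comp ((tendsto_rpow_atTop ha).comp tendsto_natCast_atTop_atTop)
  set f : ℕ → ℕ := fun N => ⌊(N : ℝ) ^ a⌋₊ with hf
  -- the logarithms
  have hL := log_floor ha
  have hd : Tendsto (fun N : ℕ => Real.log (Real.log (f N : ℝ)) - Real.log (Real.log (N : ℝ))) atTop
      (𝓝 (Real.log a)) := by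
    have h1 := (Real.continuousAt_log ha.ne').tendsto.comp hL
    refine h1.congr' ?_
    filter_upwards [hlog.eventually_gt_atTop 0, (hlog.comp hfl).eventually_gt_atTop 0] with N h2 h3
    have h3' : 0 < Real.log (f N : ℝ) := h3
    exact Real.log_div h3'.ne' h2.ne'
  have hD : ∀ᶠ N : ℕ in atTop,
      |Real.log (Real.log (f N : ℝ)) - Real.log (Real.log (N : ℝ))| ≤ |Real.log a| + 1 := by
    have h1 := hd.abs.eventually_lt_const (lt_add_one |Real.log a|)
    filter_upwards [h1] with N h2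
    exact h2.le
  have hpsi := Pool.Agent.Helper5.TP.psi_ratio (td_nonneg r) (Pool.Agent.Helper5.TP.td_le_C r)
    (td_anti r) hc hl1 hll hD
  -- the ratio of the generating functions
  have hG : Tendsto (fun N : ℕ => GG (td r) (Real.log (Real.log (f N : ℝ))) /
      GG (td r) (Real.log (Real.log (N : ℝ)))) atTop (𝓝 a) := by
    have h1 := hL.mul hpsi
    rw [mul_one] at h1
    refine h1.congr' ?_
    filter_upwards [hlog.eventually_gt_atTop 0, (hlog.comp hfl).eventually_gt_atTop 0] with N h2 h3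
    have h3' : 0 < Real.log (f N : ℝ) := h3
    show Real.log (f N : ℝ) / Real.log N *
      (Real.exp (-Real.log (Real.log (f N : ℝ))) * GG (td r) (Real.log (Real.log (f N : ℝ))) /
        (Real.exp (-Real.log (Real.log (N : ℝ))) * GG (td r) (Real.log (Real.log (N : ℝ))))) = _
    rw [Real.exp_neg, Real.exp_neg, Real.exp_log h3', Real.exp_log h2]
    have h4 : Real.log (f N : ℝ) ≠ 0 := h3'.ne'
    have h5 : Real.log (N : ℝ) ≠ 0 := h2.ne'
    rw [div_mul_div_comm, ← mul_assoc, ← mul_assoc, mul_inv_cancel₀ h4, mul_inv_cancel₀ h5,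
      one_mul, one_mul]
  have hA := asym hr
  have hB : Tendsto (fun N : ℕ => M r (f N) / GG (td r) (Real.log (Real.log (f N : ℝ)))) atTop
      (𝓝 1) := hA.comp hfl
  have hall := (hB.mul hG).div hA one_ne_zero
  rw [one_mul, div_one] at hall
  refine hall.congr' ?_
  have hpos := GG_pos hr
  filter_upwards [hpos, hfl.eventually hpos] with N h2 h3
  have h3' : 0 < GG (td r) (Real.log (Real.log (f N : ℝ))) := h3
  show M r (f N) / GG (td r) (Real.log (Real.log (f N : ℝ))) *
    (GG (td r) (Real.log (Real.log (f N : ℝ))) / GG (td r) (Real.log (Real.log (N : ℝ)))) /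
      (M r N / GG (td r) (Real.log (Real.log (N : ℝ)))) = M r (f N) / M r N
  rw [div_mul_div_cancel₀ h3'.ne', div_div_div_cancel_right₀ h2.ne']

end Pool.Agent.Helper26.TE
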