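import Pool.Agent.Helper26.TE.Split2
import Pool.Agent.Helper26.TE.PoisUp
import Pool.Agent.Helper26.TD.Asym

/-!
# TE-9 (MP_277c78_nt): the upper half of the asymptotic formula
-/

set_option autoImplicit false

namespace Pool.Agent.Helper26.TE

open Finset Filter Topology
open Pool.Agent.Helper16.UB (Admissible M W)
open Pool.Agent.Helper26.TD

theorem up_asym {r : ℕ} (hr : 2 ≤ r) {ε : ℝ} (hε : 0 < ε) :
    ∀ᶠ N : ℕ in atTop, M r N ≤ (1 + ε) * GG (td r) (Real.log (Real.log N)) := by
  obtain ⟨η, hη0, hη1, hηε⟩ : ∃ η : ℝ, 0 < η ∧ η ≤ 1 ∧ 3 * η ≤ ε := by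
    refine ⟨min (ε / 3) 1, lt_min (by positivity) one_pos, min_le_right _ _, ?_⟩
    have := min_le_left (ε / 3) 1
    linarith
  obtain ⟨c, hc, k1, hk1⟩ := td_ge hr
  obtain ⟨C0, hC0⟩ := Pool.Agent.Helper16.UB.exists_W_le
  obtain ⟨z, hz2, hz⟩ := exists_z hη0
  obtain ⟨l1, hl1⟩ := pois_up (td_nonneg r) (td_le_one r) (td_anti r) hc hk1 hη0
  obtain ⟨l2, hl2⟩ := GG_low (td_nonneg r) (td_le_one r) (td_anti r) hc hk1
  have hlog2 : 0 < Real.log 2 := Real.log_pos one_lt_two
  have hlog2' := Real.log_two_gt_d9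
  set Wz := Pool.Agent.Helper16.UB.W z with hWz
  set e := Real.exp (-(1 / (z : ℝ))) with he
  have hep : 0 < e := Real.exp_pos _
  have hzR : (2 : ℝ) ≤ z := by exact_mod_cast hz2
  have hq : 0 < 1 - 1 / (z : ℝ) := by
    have : 1 / (z : ℝ) ≤ 1 / 2 := one_div_le_one_div_of_le two_pos hzR
    linarith
  have hc8 : 0 < c / 8 := by positivity
  set b := 4 * Real.log 2 - 1 with hb
  have hbp : 0 < b := by linarith
  set C := C0 + Real.log 2 with hC
  -- what is needed for large `x`
  have T1 := tendsto_uu (C := C) hc8 one_pos hbp hep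
  have E1 : ∀ᶠ x : ℝ in atTop, uu (c / 8) C 1 b e x < (1 + η) * (1 - 1 / (z : ℝ)) :=
    T1.eventually_lt_const hz
  have E2 : ∀ᶠ x : ℝ in atTop, Real.exp (C - b * x) < e := by
    have h3 : Tendsto (fun x : ℝ => Real.exp (C - b * x)) atTop (𝓝 0) := by
      apply Real.tendsto_exp_atBot.comp
      have h : Tendsto (fun x : ℝ => b * x) atTop atTop := tendsto_id.const_mul_atTop hbp
      exact tendsto_atBot_add_const_left _ C (tendsto_neg_atTop_atBot.comp h) |>.congr
        fun x => by show C + -(b * x) = C - b * x; ring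
    exact h3.eventually_lt_const hep
  have E3 : ∀ᶠ x : ℝ in atTop,
      3 * Real.log x + (Real.log 2 + 1 + Wz) ≤ x ^ (1 / 4 : ℝ) := by
    have h1 : ∀ᶠ x : ℝ in atTop, ‖Real.log x‖ ≤ 1 / 6 * ‖x ^ (1 / 4 : ℝ)‖ := by
      have := (isLittleO_log_rpow_atTop (show (0 : ℝ) < 1 / 4 by norm_num)).def
        (show (0 : ℝ) < 1 / 6 by norm_num)
      exact this
    have h2 : ∀ᶠ x : ℝ in atTop, (Real.log 2 + 1 + Wz) * 2 ≤ x ^ (1 / 4 : ℝ) :=
      (tendsto_rpow_atTop (show (0 : ℝ) < 1 / 4 by norm_num)).eventually_ge_atTop _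
    filter_upwards [h1, h2, eventually_ge_atTop 1] with x hx1 hx2 hx3
    rw [Real.norm_of_nonneg (Real.log_nonneg hx3),
      Real.norm_of_nonneg (Real.rpow_nonneg (by linarith) _)] at hx1
    linarith
  have E3' : ∀ᶠ x : ℝ in atTop, C0 ≤ 3 * Real.log x := by
    have := Real.tendsto_log_atTop.eventually_ge_atTop (C0 / 3)
    filter_upwards [this] with x hx
    linarith
  have E3'' : ∀ᶠ x : ℝ in atTop, l2 ≤ x - x ^ (1 / 4 : ℝ) ∧ 0 < x - x ^ (1 / 4 : ℝ) := by
    have h1 : ∀ᶠ x : ℝ in atTop, 2 ≤ x ^ (3 / 4 : ℝ) :=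
      (tendsto_rpow_atTop (show (0 : ℝ) < 3 / 4 by norm_num)).eventually_ge_atTop _
    filter_upwards [h1, eventually_ge_atTop 1, eventually_ge_atTop (2 * l2)] with x hx1 hx2 hx3
    have h2 : x ^ (1 / 4 : ℝ) * x ^ (3 / 4 : ℝ) = x := by
      rw [← Real.rpow_add (by linarith)]
      norm_num
    have h3 : 0 ≤ x ^ (1 / 4 : ℝ) := Real.rpow_nonneg (by linarith) _
    have h4 : x ^ (1 / 4 : ℝ) * 2 ≤ x := by
      have := mul_le_mul_of_nonneg_left hx1 h3
      linarith
    constructor <;> linarith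
  have E4 : ∀ᶠ x : ℝ in atTop, 2 * Real.log 2 * x ^ 3 ≤ Real.exp x := by
    have h := Real.tendsto_pow_mul_exp_neg_atTop_nhds_zero 3
    have h2 := h.eventually_lt_const (show (0 : ℝ) < 1 / (2 * Real.log 2) by positivity)
    filter_upwards [h2] with x hx
    rw [Real.exp_neg, ← div_eq_mul_inv, div_lt_div_iff₀ (Real.exp_pos x) (by positivity)] at hx
    linarith
  have E5 : ∀ᶠ x : ℝ in atTop, 2 ≤ x ∧ l1 ≤ x :=
    (eventually_ge_atTop _).and (eventually_ge_atTop _)
  have hll := Pool.Agent.Helper16.UB.tendsto_ll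
  filter_upwards [hll.eventually E1, hll.eventually E2, hll.eventually E3, hll.eventually E3',
    hll.eventually E3'', hll.eventually E4, hll.eventually E5, eventually_ge_atTop 3]
    with N f1 f2 f3 f3' f3'' f4 f5 hN3
  have hxdef : Pool.Agent.Helper16.UB.ll N = Real.log (Real.log N) := rfl
  set x := Pool.Agent.Helper16.UB.ll N with hx
  rw [← hxdef]
  obtain ⟨hx2, hxl1⟩ := f5
  have hNR : (3 : ℝ) ≤ N := by exact_mod_cast hN3
  have hNpos : (0 : ℝ) < N := by linarith
  set G := Real.log N with hG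
  have hGp : 0 < G := Real.log_pos (by linarith)
  have hGx : Real.exp x = G := by rw [hxdef, Real.exp_log hGp]
  have hexpG : Real.exp G = N := by rw [hG, Real.exp_log hNpos]
  have hxp : 0 < x := by linarith
  -- the parameters
  set X := G / x ^ 3 with hX
  have hX2 : 2 * Real.log 2 ≤ X := by
    rw [hX, le_div_iff₀ (by positivity), ← hGx]
    exact f4
  have hXp : 0 < X := by linarith
  have hXG : X ≤ G := by
    rw [hX]
    apply div_le_self hGp.le
    exact one_le_pow₀ (by linarith)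
  set y := ⌊Real.exp X⌋₊ with hy
  set K := ⌊4 * x⌋₊ with hK
  have hexpX : 4 ≤ Real.exp X := by
    have h : Real.exp (2 * Real.log 2) ≤ Real.exp X := Real.exp_le_exp.2 hX2
    have h' : Real.exp (2 * Real.log 2) = 4 := by
      rw [two_mul, Real.exp_add, Real.exp_log two_pos]
      norm_num
    linarith
  have hyX : (y : ℝ) ≤ Real.exp X := Nat.floor_le (Real.exp_pos _).le
  have hyX' : Real.exp X < y + 1 := Nat.lt_floor_add_one _
  have hy3 : (3 : ℝ) < y := by linarith
  have hy2 : 2 ≤ y := by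
    have : (2 : ℝ) < y := by linarith
    exact_mod_cast this.le
  have hypos : (0 : ℝ) < y := by linarith
  have hKx : (K : ℝ) ≤ 4 * x := Nat.floor_le (by linarith)
  have hKx' : 4 * x < K + 1 := Nat.lt_floor_add_one _
  have hKX : (K : ℝ) * X ≤ 4 * G / x ^ 2 := by
    have h : (K : ℝ) * X ≤ 4 * x * X := mul_le_mul_of_nonneg_right hKx hXp.le
    have e1 : 4 * x * X = 4 * G / x ^ 2 := by
      rw [hX]
      field_simp
    linarith
  have hlogy : Real.log y ≤ X := by
    rw [Real.log_le_iff_le_exp hypos]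
    exact hyX
  have hlogy' : X / 2 ≤ Real.log y := by
    have h : Real.exp X / 2 ≤ y := by linarith
    have h2 := Real.log_le_log (by positivity) h
    rw [Real.log_div (Real.exp_pos _).ne' two_ne_zero, Real.log_exp] at h2
    linarith
  have hll2 : x - 3 * Real.log x - Real.log 2 ≤ Real.log (Real.log y) := by
    have h := Real.log_le_log (by positivity) hlogy'
    have e1 : Real.log (X / 2) = x - 3 * Real.log x - Real.log 2 := by
      rw [Real.log_div hXp.ne' two_ne_zero, hX, Real.log_div hGp.ne' (by positivity),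
        Real.log_pow, hxdef]
      norm_num
    linarith
  have hll3 : Real.log (Real.log y) ≤ x - 3 * Real.log x := by
    have h := Real.log_le_log (by linarith) hlogy
    have e1 : Real.log X = x - 3 * Real.log x := by
      rw [hX, Real.log_div hGp.ne' (by positivity), Real.log_pow, hxdef]
      norm_num
    linarith
  have hL1 : x - x ^ (1 / 4 : ℝ) ≤ LL (PP z y) := by
    have h1 := Pool.Agent.Helper16.UB.W_ge y hy2
    have h2 := W_le_LL z y
    rw [← hWz] at h2
    linarith
  have hL2 : LL (PP z y) ≤ x := by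
    have h1 := LL_le_W z y
    have h3 := hC0 y hy2
    linarith
  set L := LL (PP z y) with hL
  have hLp : 0 < L := lt_of_lt_of_le f3''.2 hL1
  have hne : (PP z y).Nonempty := by
    rw [Finset.nonempty_iff_ne_empty]
    intro h
    rw [hL, h] at hLp
    simp [LL] at hLp
  set ψ := Real.exp (-L) * GG (td r) L with hψ
  have hψE : GG (td r) L = ψ * Real.exp L + 0 := by
    rw [hψ, add_zero, mul_comm (Real.exp (-L)), mul_assoc, ← Real.exp_add]
    simp
  have ht : c / 8 / x ≤ ψ := by
    refine le_trans ?_ (hl2 L (f3''.1.trans hL1))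
    rw [div_div]
    apply div_le_div_of_nonneg_left hc.le (by positivity)
    linarith
  have hs := split2 (N := N) (K := K) hr (show 1 ≤ z by omega) hne
  rw [← hL, ← hG, hψE] at hs
  have hD := DD_ge (z := z) (y := y) (K := K) (by omega)
  rw [← hL, ← he] at hD
  have hfin := last_step (m := M r N) (q := 1 - 1 / (z : ℝ)) (D := DD (PP z y) K)
    (E := Real.exp L) (G := G) (t := ψ)
    (s := 0) (Y := Real.log ((y : ℝ) ^ K)) (x := x)
    (c := c / 8) (C := C) (a := 1) (b := b) (e := e) (τ := Real.exp L / 2 ^ K) hq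
    (Real.exp_pos _) hGp hxp hc8 ht hs ?_ ?_ ?_ ?_ ?_ ?_
  · have htp : 0 < ψ := lt_of_lt_of_le (div_pos hc8 hxp) ht
    have h1 : M r N * (1 - 1 / (z : ℝ)) ≤ ψ * G * ((1 + η) * (1 - 1 / (z : ℝ))) :=
      hfin.trans (mul_le_mul_of_nonneg_left f1.le (by positivity))
    have h2 : M r N * (1 - 1 / (z : ℝ)) ≤ (1 + η) * ψ * G * (1 - 1 / (z : ℝ)) := by
      linarith
    have h3 : M r N ≤ (1 + η) * ψ * G := le_of_mul_le_mul_right h2 hq
    have h4 : ψ ≤ (1 + η) * (Real.exp (-x) * GG (td r) x) := hl1 x hxl1 L hL1 hL2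
    have h5 : Real.exp (-x) * GG (td r) x * G = GG (td r) x := by
      rw [← hGx, mul_comm (Real.exp (-x)), mul_assoc, ← Real.exp_add]
      simp
    have h6 : 0 ≤ GG (td r) x := GG_nonneg (td_nonneg r) hxp.le
    calc M r N ≤ (1 + η) * ψ * G := h3
      _ ≤ (1 + η) * ((1 + η) * (Real.exp (-x) * GG (td r) x)) * G := by
          apply mul_le_mul_of_nonneg_right _ hGp.le
          exact mul_le_mul_of_nonneg_left h4 (by linarith)
      _ = (1 + η) ^ 2 * (Real.exp (-x) * GG (td r) x * G) := by ring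
      _ = (1 + η) ^ 2 * GG (td r) x := by rw [h5]
      _ ≤ (1 + ε) * GG (td r) x := by
          apply mul_le_mul_of_nonneg_right _ h6
          nlinarith
  · have e1 : Real.exp L * (Real.exp L / 2 ^ K) = Real.exp (2 * L) / 2 ^ K := by
      rw [two_mul, Real.exp_add]
      ring
    rw [e1]
    exact hD
  · positivity
  · have h2K : (2 : ℝ) ^ K = Real.exp (K * Real.log 2) := by
      rw [mul_comm, Real.exp_mul, Real.exp_log two_pos, Real.rpow_natCast]
    rw [h2K, ← Real.exp_sub, Real.exp_le_exp, hC, hb]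
    have h3 : (4 * x - 1) * Real.log 2 ≤ K * Real.log 2 :=
      mul_le_mul_of_nonneg_right (by linarith) hlog2.le
    have h4 : LL (PP z y) ≤ x + C0 := by
      have h1 := LL_le_W z y
      have h2 := hC0 y hy2
      have : 0 ≤ Real.log x := Real.log_nonneg (by linarith)
      linarith
    linarith
  · exact sub_pos.2 f2
  · rw [Real.log_pow]
    exact (mul_le_mul_of_nonneg_left hlogy (Nat.cast_nonneg _)).trans hKX
  · rw [Real.exp_neg, hGx, one_div]

end Pool.Agent.Helper26.TE
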